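import Pool.Agent.H4.D2.Two
import Pool.Agent.H68.OWN.Npl

/-!
# The slope of the target is constant when the velocity is alive

`step_ev`: one jet `r = C u + C' b` which is few bits, with a small first term and a large second
coefficient, makes `b` few bits. `cn1`: if all the jets `c j * u + m j * c (j - 1) * b`, `2 ≤ j ≤ D + 1`,
are few bits given `Z` and `b` is alive given `Z` on every large event, then all `c j`, `1 ≤ j ≤ D`,
are small.
-/

set_option autoImplicit false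

namespace Pool.SLW13

open Finset Real
open Pool.Agent.H49.Ent Pool.Agent.H32.Dense Pool.STK

variable {Ω Γ : Type} [Fintype Ω] {p : Ω → ℝ}

theorem floor_sub_lt' {x y K : ℝ} (h : |x - y| ≤ K) {n : ℕ} (hK : K ≤ n) :
    |⌊x⌋ - ⌊y⌋| ≤ ((n + 1 : ℕ) : ℤ) := by
  have h1 := Int.floor_le x
  have h2 := Int.lt_floor_add_one x
  have h3 := Int.floor_le y
  have h4 := Int.lt_floor_add_one y
  rw [abs_le] at h
  rw [abs_le]
  constructor
  · have : (-((n : ℝ) + 1) - 1 : ℝ) < (⌊x⌋ : ℝ) - ⌊y⌋ := by linarith [h.1]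
    have h5 : ((-((n : ℤ) + 1) - 1 : ℤ) : ℝ) < ((⌊x⌋ - ⌊y⌋ : ℤ) : ℝ) := by
      push_cast
      exact this
    have h6 : (-((n : ℤ) + 1) - 1 : ℤ) < ⌊x⌋ - ⌊y⌋ := by exact_mod_cast h5
    push_cast
    linarith
  · have : (⌊x⌋ : ℝ) - ⌊y⌋ < (n : ℝ) + 1 + 1 := by linarith [h.2]
    have h5 : ((⌊x⌋ - ⌊y⌋ : ℤ) : ℝ) < (((n : ℤ) + 1 + 1 : ℤ) : ℝ) := by
      push_cast
      exact this
    have h6 : ⌊x⌋ - ⌊y⌋ < (n : ℤ) + 1 + 1 := by exact_mod_cast h5
    push_cast
    linarith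

theorem law_mono_true (h0 : ∀ ω, 0 ≤ p ω) {A B : Ω → Prop}
    (h : ∀ ω, 0 < p ω → A ω → B ω) : law p A True ≤ law p B True := by
  classical
  unfold law
  refine Finset.sum_le_sum fun ω _ => ?_
  by_cases hω : 0 < p ω
  · by_cases hA : A ω
    · simp [hA, h ω hω hA]
    · simp only [hA, eq_iff_iff, false_iff, not_true_eq_false, if_false]
      split_ifs
      · exact h0 ω
      · exact le_rfl
  · have h1 : p ω = 0 := le_antisymm (not_lt.1 hω) (h0 ω)
    rw [h1]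
    simp

theorem law_or_true (h0 : ∀ ω, 0 ≤ p ω) {A B C : Ω → Prop}
    (h : ∀ ω, 0 < p ω → A ω → B ω ∨ C ω) : law p A True ≤ law p B True + law p C True := by
  classical
  unfold law
  rw [← Finset.sum_add_distrib]
  refine Finset.sum_le_sum fun ω _ => ?_
  by_cases hω : 0 < p ω
  · have hp := h0 ω
    by_cases hA : A ω
    · rcases h ω hω hA with hB | hC
      · simp only [hA, hB, if_true]
        split_ifs <;> linarith
      · simp only [hA, hC, if_true]
        split_ifs <;> linarith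
    · simp only [hA, eq_iff_iff, false_iff, not_true_eq_false, if_false]
      split_ifs <;> linarith
  · have h1 : p ω = 0 := le_antisymm (not_lt.1 hω) (h0 ω)
    rw [h1]
    simp

/-- **One jet.** -/
theorem step_ev (hp : IsLaw p) (Z : Ω → Γ) (r u b C C' : Ω → ℝ) (G : Ω → Prop)
    {lam lam' nu : ℝ} (hlam : 0 < lam) (hle : lam ≤ lam') (hnu : 0 < nu)
    (hG : 0 < law p G True)
    (hrel : ∀ ω ω', 0 < p ω → 0 < p ω' → Z ω = Z ω' →
      |(r ω - r ω') - ((C ω * u ω + C' ω * b ω) - (C ω' * u ω' + C' ω' * b ω'))| ≤ lam)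
    (hcl : ∀ ω ω', 0 < p ω → 0 < p ω' → Z ω = Z ω' → |(C' ω - C' ω') * b ω'| ≤ lam)
    (hC : ∀ ω, 0 < p ω → G ω → |C ω * u ω| ≤ lam')
    (hC' : ∀ ω, 0 < p ω → G ω → lam' / nu ≤ |C' ω|) :
    CH (cond p G True) (fun ω => ⌊b ω / nu⌋) (fun ω => (⌊r ω / lam⌋, Z ω)) ≤ Real.log 13 := by
  have hq : IsLaw (cond p G True) := ⟨cond_nonneg hp.nonneg G True, sum_cond p G hG.ne'⟩
  have hlam' : 0 < lam' := hlam.trans_le hle
  refine (Pool.OWN68.CH_pair hq (fun ω => ⌊b ω / nu⌋) (fun ω => (⌊r ω / lam⌋, Z ω)) (D := 6)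
    fun ω ω' hω hω' e => ?_).trans (le_of_eq (by norm_num))
  obtain ⟨a1, a2⟩ := (Prod.mk.injEq _ _ _ _).mp e
  obtain ⟨p1, g1⟩ := (cond_pos_iff hp.nonneg G True ω).1 hω
  obtain ⟨p2, g2⟩ := (cond_pos_iff hp.nonneg G True ω').1 hω'
  replace g1 : G ω := of_eq_true g1
  replace g2 : G ω' := of_eq_true g2
  have b1 := hrel ω ω' p1 p2 a2
  have b2 := hcl ω ω' p1 p2 a2
  have b3 := hC ω p1 g1
  have b4 := hC ω' p2 g2
  have b5 := hC' ω p1 g1
  have b6 : |r ω - r ω'| ≤ lam := by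
    have h1 := Int.abs_sub_lt_one_of_floor_eq_floor a1
    rw [← sub_div, abs_div, abs_of_pos hlam, div_lt_one hlam] at h1
    exact h1.le
  have b7 : |C' ω * (b ω - b ω')| ≤ 5 * lam' := by
    rw [abs_le] at b1 b2 b3 b4 b6 ⊢
    constructor <;> nlinarith [b1.1, b1.2, b2.1, b2.2, b3.1, b3.2, b4.1, b4.2, b6.1, b6.2]
  have b8 : |b ω / nu - b ω' / nu| ≤ 5 := by
    rw [← sub_div, abs_div, abs_of_pos hnu, div_le_iff₀ hnu]
    rw [abs_mul] at b7
    have h1 : lam' / nu * |b ω - b ω'| ≤ 5 * lam' :=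
      (mul_le_mul_of_nonneg_right b5 (abs_nonneg _)).trans b7
    have h2 : lam' / nu * |b ω - b ω'| = lam' * (|b ω - b ω'| / nu) := by ring
    rw [h2] at h1
    have h3 : |b ω - b ω'| / nu ≤ 5 := by
      have : lam' * (|b ω - b ω'| / nu) ≤ lam' * 5 := by linarith
      exact le_of_mul_le_mul_left this hlam'
    rw [div_le_iff₀ hnu] at h3
    exact h3
  exact floor_sub_lt' b8 (n := 5) (by norm_num)

/-- **The slope is constant when the velocity is alive.** The jets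
`r j = c j * u + m j * c (j - 1) * b`, `2 ≤ j ≤ D + 1`, are few bits given `Z`, `c (D + 1) = 0`, and `b`
is alive given `Z` on every event of probability at least `η`. Then
`|c j| ≤ lam * (N / nu) ^ (D + 1 - j) / N` for `1 ≤ j ≤ D`, outside probability `(D + 1 - j) * η`. -/
theorem cn1 {D : ℕ} (hp : IsLaw p) (Z : Ω → Γ) (r c : ℕ → Ω → ℝ) (m : ℕ → ℝ) (u b : Ω → ℝ)
    {N nu lam e η a : ℝ} (hnu : 0 < nu) (hN : nu ≤ N) (hlam : 0 < lam) (hη : 0 < η)
    (hm : ∀ j, 1 ≤ |m j|) (hu : ∀ ω, 0 < p ω → |u ω| ≤ N)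
    (hcD : ∀ ω, 0 < p ω → c (D + 1) ω = 0)
    (hrel : ∀ j, 2 ≤ j → j ≤ D + 1 → ∀ ω ω', 0 < p ω → 0 < p ω' → Z ω = Z ω' →
      |(r j ω - r j ω') - ((c j ω * u ω + m j * c (j - 1) ω * b ω) -
        (c j ω' * u ω' + m j * c (j - 1) ω' * b ω'))| ≤ lam)
    (hcl : ∀ j, 2 ≤ j → j ≤ D + 1 → ∀ ω ω', 0 < p ω → 0 < p ω' → Z ω = Z ω' →
      |(m j * c (j - 1) ω - m j * c (j - 1) ω') * b ω'| ≤ lam)
    (hfew : ∀ j, 2 ≤ j → j ≤ D + 1 → CH p (fun ω => ⌊r j ω / lam⌋) Z ≤ e)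
    (halive : ∀ B : Ω → Prop, η ≤ law p B True → a ≤ CH (cond p B True) (fun ω => ⌊b ω / nu⌋) Z)
    (hnum : e / η + Real.log 13 < a) :
    ∀ i < D, law p (fun ω => lam * (N / nu) ^ (i + 1) / N < |c (D - i) ω|) True ≤
      ((i : ℝ) + 1) * η := by
  have h0 := hp.nonneg
  have hN0 : 0 < N := hnu.trans_le hN
  have hK : 1 ≤ N / nu := by rwa [one_le_div hnu]
  -- one step
  have key : ∀ j, 2 ≤ j → j ≤ D + 1 → ∀ k : ℕ,
      law p (fun ω => |c j ω| ≤ lam * (N / nu) ^ k / N ∧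
        lam * (N / nu) ^ (k + 1) / N < |c (j - 1) ω|) True < η := by
    intro j hj1 hj2 k
    set G : Ω → Prop := fun ω => |c j ω| ≤ lam * (N / nu) ^ k / N ∧
        lam * (N / nu) ^ (k + 1) / N < |c (j - 1) ω| with hG
    refine Pool.D2P.read_ev hp (fun ω => ⌊b ω / nu⌋) (fun ω => ⌊r j ω / lam⌋) Z G hη
      (hfew j hj1 hj2) (fun h => halive G h) (fun h => ?_) hnum
    refine step_ev hp Z (r j) u b (c j) (fun ω => m j * c (j - 1) ω) G
      (lam' := lam * (N / nu) ^ k) hlam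
      (le_mul_of_one_le_right hlam.le (one_le_pow₀ hK)) hnu (hη.trans_le h)
      (fun ω ω' h1 h2 h3 => hrel j hj1 hj2 ω ω' h1 h2 h3)
      (fun ω ω' h1 h2 h3 => hcl j hj1 hj2 ω ω' h1 h2 h3) (fun ω hω hg => ?_) (fun ω hω hg => ?_)
    · rw [abs_mul]
      calc |c j ω| * |u ω| ≤ (lam * (N / nu) ^ k / N) * N :=
            mul_le_mul hg.1 (hu ω hω) (abs_nonneg _) (by positivity)
        _ = lam * (N / nu) ^ k := by field_simp
    · have h1 : lam * (N / nu) ^ k / nu = lam * (N / nu) ^ (k + 1) / N := by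
        rw [pow_succ]
        field_simp
      rw [h1, abs_mul]
      refine hg.2.le.trans ?_
      exact le_mul_of_one_le_left (abs_nonneg _) (hm j)
  intro i
  induction i with
  | zero =>
    intro hD
    have h1 := key (D + 1) (by omega) le_rfl 0
    refine le_trans ?_ (le_trans h1.le (by norm_num))
    refine law_mono_true h0 fun ω hω hg => ⟨?_, ?_⟩
    · rw [hcD ω hω, abs_zero]
      positivity
    · simpa using hg
  | succ i ih =>
    intro hD
    have h1 := ih (by omega)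
    have h2 := key (D - i) (by omega) (by omega) (i + 1)
    have e1 : D - i - 1 = D - (i + 1) := by omega
    rw [e1] at h2
    have h3 : law p (fun ω => lam * (N / nu) ^ (i + 1 + 1) / N < |c (D - (i + 1)) ω|) True ≤
        law p (fun ω => lam * (N / nu) ^ (i + 1) / N < |c (D - i) ω|) True +
        law p (fun ω => |c (D - i) ω| ≤ lam * (N / nu) ^ (i + 1) / N ∧
          lam * (N / nu) ^ (i + 1 + 1) / N < |c (D - (i + 1)) ω|) True := by
      refine law_or_true h0 fun ω hω hg => ?_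
      by_cases hh : lam * (N / nu) ^ (i + 1) / N < |c (D - i) ω|
      · exact Or.inl hh
      · exact Or.inr ⟨not_lt.1 hh, hg⟩
    push_cast
    linarith

end Pool.SLW13
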