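import Pool.Agent.H28.D2.FrN

/-!
# All jets of the own height over the reference line, and the velocity of one coordinate

`HopN.ajh`: the natural geometric data of the hop give the hypotheses of the law on all jets.
`jets_nat`: all jets and coefficients of the own height over the reference line are few bits given
the record. `dead_blk`: if the slope of the target in the direction of the coordinate `k` has a large
derivative, the velocity of this coordinate is few bits. `dead_run`: many short blocks; the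
digits of the slopes are only needed to the length of one block.
-/

set_option autoImplicit false

namespace Pool.SLW13

open Finset Real MvPolynomial
open Pool.Agent.H49.Ent Pool.Agent.H32.Dense Pool.STK Pool.KA Pool.KSAT Pool.K2S Pool.PB Pool.GEN
open Pool.S6C Pool.LA91
open Pool.OWN68 (opl tw uw CH_pair CH_pis natDegree_opl opl_jet uw_abs tw_abs floor_sub_le
  of_floor_div pj path_law)
open Pool.D2H (of_floor_mul eval_small der_small' uw_eq CH_step hgt num hgt_sub hgt_coeff hgt_two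
  eval_lin CH_pi_le)
open Pool.D2F2

variable {m J : ℕ}

/-- **The hypotheses of the law on all jets** from the natural geometric data. -/
theorem hopN_ajh (r D : ℕ) : ∃ C : ℕ, ∀ {m J : ℕ} (F : Fam m J) (A : F.Ω → Prop)
    (_ : 0 < Pe F.p A) {κ : Type} (d : Dat F κ r D) {W Q : ℕ} {σ : ℝ} {K : ℕ} {γ : Type}
    {Y : F.Ω → γ}, HopN d A W Q σ K Y → ∀ {μ δ : ℝ}, (Q : ℝ) ≤ μ * J →
    C * Real.log (C * (K + 1)) ≤ δ * μ * J →
    (J : ℝ) * Real.log 2 - δ * μ * J ≤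
      CH (Pool.Agent.H49.Ent.cond F.p A True) F.T (fun ω => (F.l ω, F.Z ω)) →
    Pool.AJ18.AjH F A (fun s => Polynomial.C σ * d.hL W A s) (fun s => d.cx s) Y (D + 1) W μ δ := by
  obtain ⟨C₁, hC₁, Hder⟩ := Pool.OWN68.der_small (D + 1)
  obtain ⟨C₂, hC₂⟩ : ∃ C₂ : ℝ, C₂ = (1 + r * (D + 1) ^ 2) + C₁ * (r * 2 + 1) + 2 :=
    ⟨_, rfl⟩
  have hr0 : (0 : ℝ) ≤ r := Nat.cast_nonneg r
  have hD0 : (0 : ℝ) ≤ D := Nat.cast_nonneg D
  have hC10 : 0 ≤ C₁ * ((r : ℝ) * 2 + 1) := by positivity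
  have hC11 : 0 ≤ (r : ℝ) * (D + 1) ^ 2 := by positivity
  have hC20 : 2 ≤ C₂ := by
    rw [hC₂]
    linarith
  obtain ⟨C, hC⟩ := exists_nat_ge (max ((r : ℝ) * (D + 3) + 1) (5 * C₂ + 5))
  have hCa : (r : ℝ) * (D + 3) + 1 ≤ C := (le_max_left _ _).trans hC
  have hCb : 5 * C₂ + 5 ≤ C := (le_max_right _ _).trans hC
  refine ⟨C, ?_⟩
  intro m J F A hA κ d W Q σ K γ Y H μ δ hQμ hK hT
  have hJr : (0 : ℝ) ≤ J := Nat.cast_nonneg J
  have hK0 : (0 : ℝ) ≤ K := Nat.cast_nonneg K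
  have hσ := H.σ0
  obtain ⟨p, hp⟩ : ∃ p : F.Ω → ℝ, p = Pool.Agent.H49.Ent.cond F.p A True := ⟨_, rfl⟩
  have hpl : IsLaw p := by
    rw [hp]
    exact isLaw_cond F.isLaw hA
  have h0 := hpl.nonneg
  have hpA : ∀ ω, 0 < p ω → A ω := fun ω hω => by
    rw [hp] at hω
    exact of_cond_pos hω
  have hctx := H.ctx hA
  rw [← hp] at hctx
  -- one number
  obtain ⟨lg, hlg⟩ : ∃ lg : ℝ, lg = Real.log (C * (K + 1)) := ⟨_, rfl⟩
  have hC0 : (0 : ℝ) ≤ C := Nat.cast_nonneg C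
  have hC1 : (1 : ℝ) ≤ C := by linarith
  have hlg0 : 0 ≤ lg := by
    rw [hlg]
    refine Real.log_nonneg ?_
    nlinarith
  have hlg1 : Real.log (2 * ((2 * K : ℕ) + 1) + 1) ≤ lg := by
    rw [hlg]
    refine Real.log_le_log (by positivity) ?_
    push_cast
    nlinarith
  obtain ⟨K₂, hK₂⟩ : ∃ K₂ : ℕ, K₂ = ⌈C₂ * K⌉₊ := ⟨_, rfl⟩
  have hK2a : C₂ * K ≤ K₂ := by
    rw [hK₂]
    exact Nat.le_ceil _
  have hK2b : (K₂ : ℝ) ≤ C₂ * K + 1 := by
    rw [hK₂]
    exact (Nat.ceil_lt_add_one (by positivity)).le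
  have hlg2 : Real.log (2 * ((K₂ + 1 : ℕ) : ℝ) + 1) ≤ lg := by
    rw [hlg]
    refine Real.log_le_log (by positivity) ?_
    push_cast
    nlinarith
  obtain ⟨cs, hcs⟩ : ∃ cs : F.Ω → CxT F κ r D, cs = fun ω => d.cx (slam F W ω) :=
    ⟨_, rfl⟩
  obtain ⟨R, hRe⟩ : ∃ R : LnT F → Polynomial ℝ, R = fun s => Polynomial.C σ *
      d.hL W A s := ⟨_, rfl⟩
  have hRdeg : ∀ x, (R x).natDegree ≤ D + 1 := fun x => by
    rw [hRe]
    exact (Polynomial.natDegree_C_mul_le _ _).trans (d.natDegree_hL A x)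
  have hc1 : CH p cs Y ≤ (r * (D + 3)) * lg := by
    rw [hcs]
    refine hctx.trans (mul_le_mul_of_nonneg_left hlg1 (by positivity))
  have h2Q : (0 : ℝ) < 2 ^ Q := by positivity
  -- the pairs
  have hpair : ∀ ω ω', A ω → A ω' → Y ω = Y ω' → cs ω = cs ω' → ∃ f : Polynomial ℝ,
      f = R (slam F W ω') - R (slam F W ω) ∧ f.natDegree ≤ D + 1 ∧
      |f.eval (uw F W ω)| ≤ K * (1 + r * (D + 1) ^ 2) ∧
      |f.derivative.eval (uw F W ω)| ≤ (1 + r * (D + 1) ^ 2) * (K * 2 ^ Q) ∧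
      ∀ j, 2 ≤ j → |f.coeff j| ≤ (r * 2) * (K * 2 ^ Q) := by
    intro ω ω' hω hω' hY e
    obtain ⟨ω₀, g1, g2, g3⟩ := d.rfo_spec (W := W) hω
    rw [hcs] at e
    dsimp only at e
    have e1 : R (slam F W ω) = Polynomial.C σ * d.hR W ω₀ (slam F W ω) := by
      rw [hRe]
      dsimp only
      unfold Dat.hL
      rw [g1]
      rfl
    have e2 : R (slam F W ω') = Polynomial.C σ * d.hR W ω₀ (slam F W ω') := by
      rw [hRe]
      dsimp only
      unfold Dat.hL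
      rw [← e, g1]
      rfl
    refine ⟨_, rfl, (Polynomial.natDegree_sub_le _ _).trans (max_le (hRdeg _) (hRdeg _)), ?_⟩
    have p1 := H.toHopP.pair hω hω' hY g3
    have p2 := H.pair hω hω' hY g3
    have p3 := H.coef g2 e
    rw [e1, e2, ← mul_sub]
    refine ⟨?_, ?_, fun j hj => ?_⟩
    · rw [Polynomial.eval_mul, Polynomial.eval_C, Polynomial.eval_sub, abs_mul, abs_of_nonneg hσ]
      exact p1
    · rw [Polynomial.derivative_C_mul, Polynomial.eval_mul, Polynomial.eval_C,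
        Polynomial.derivative_sub, Polynomial.eval_sub, abs_mul, abs_of_nonneg hσ]
      exact p2
    · rw [Polynomial.coeff_C_mul, Polynomial.coeff_sub, abs_mul, abs_of_nonneg hσ]
      exact p3 j hj
  have hCr : (1 + (r : ℝ) * (D + 1) ^ 2) ≤ C₂ := by
    rw [hC₂]
    linarith
  have hCd : C₁ * ((r : ℝ) * 2 + 1) ≤ C₂ := by
    rw [hC₂]
    linarith
  -- the height
  have hjet0 : CH p (fun ω => ⌊pj F R W 0 ω⌋) Y ≤ (r * (D + 3) + 1) * lg := by
    have s1 := CH_step h0 (fun ω => ⌊pj F R W 0 ω⌋) cs Y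
    have s2 : CH p (fun ω => ⌊pj F R W 0 ω⌋) (fun ω => (cs ω, Y ω)) ≤ lg := by
      refine le_trans (CH_pair hpl _ _ (D := K₂ + 1) fun ω ω' hω hω' e => ?_) hlg2
      obtain ⟨e1, e2⟩ := Prod.ext_iff.mp e
      dsimp only at e1 e2
      obtain ⟨f, f0, f1, f2, f3, f4⟩ := hpair ω ω' (hpA ω hω) (hpA ω' hω') e2 e1
      refine floor_sub_le ?_
      have hT' := uw_eq (W := W) (H.TZ ω ω' (hpA ω hω) (hpA ω' hω') e2).1
      have e3 : pj F R W 0 ω - pj F R W 0 ω' = -(f.eval (uw F W ω)) := by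
        unfold pj
        rw [f0, ← hT', Function.iterate_zero, id, id, Polynomial.eval_sub]
        ring
      rw [e3, abs_neg]
      refine f2.trans (le_trans ?_ hK2a)
      rw [mul_comm]
      exact mul_le_mul_of_nonneg_right hCr hK0
    nlinarith [s1, s2, hc1]
  -- the jets
  have hpow : (2 : ℝ) ^ Q ≤ 2 ^ (μ * J) := by
    rw [← Real.rpow_natCast 2 Q]
    exact Real.rpow_le_rpow_of_exponent_le (by norm_num) hQμ
  have hpow0 : (0 : ℝ) < 2 ^ (μ * J) := by positivity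
  have hjet : ∀ j ≤ D + 1, j ≠ 0 → CH p (fun ω => ⌊pj F R W j ω / 2 ^ (μ * J)⌋) Y ≤
      (r * (D + 3) + 1) * lg := by
    intro j hjD hj
    have s1 := CH_step h0 (fun ω => ⌊pj F R W j ω / 2 ^ (μ * J)⌋) cs Y
    have s2 : CH p (fun ω => ⌊pj F R W j ω / 2 ^ (μ * J)⌋) (fun ω => (cs ω, Y ω)) ≤ lg := by
      refine le_trans (CH_pair hpl _ _ (D := K₂ + 1) fun ω ω' hω hω' e => ?_) hlg2
      obtain ⟨e1, e2⟩ := Prod.ext_iff.mp e
      dsimp only at e1 e2
      obtain ⟨f, f0, f1, f2, f3, f4⟩ := hpair ω ω' (hpA ω hω) (hpA ω' hω') e2 e1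
      refine floor_sub_le ?_
      have hT' := uw_eq (W := W) (H.TZ ω ω' (hpA ω hω) (hpA ω' hω') e2).1
      have e3 : pj F R W j ω / 2 ^ (μ * J) - pj F R W j ω' / 2 ^ (μ * J) =
          -((Polynomial.derivative^[j] f).eval (uw F W ω)) / 2 ^ (μ * J) := by
        unfold pj
        rw [f0, ← hT', Polynomial.iterate_derivative_sub, Polynomial.eval_sub]
        ring
      have hb : |(Polynomial.derivative^[j] f).eval (uw F W ω)| ≤ (C₂ * K) * 2 ^ Q := by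
        rcases Nat.lt_or_ge j 2 with h1 | h1
        · obtain rfl : j = 1 := by omega
          rw [Function.iterate_one]
          refine f3.trans ?_
          rw [← mul_assoc]
          exact mul_le_mul_of_nonneg_right (mul_le_mul_of_nonneg_right hCr hK0) h2Q.le
        · refine (Hder f j _ _ f1 (uw_abs F W ω) fun i hi => f4 i (h1.trans hi)).trans ?_
          have h5 : C₁ * ((r : ℝ) * 2 * (K * 2 ^ Q)) = ((C₁ * (r * 2)) * K) * 2 ^ Q := by ring
          rw [h5]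
          refine mul_le_mul_of_nonneg_right (mul_le_mul_of_nonneg_right ?_ hK0) h2Q.le
          refine le_trans ?_ hCd
          exact mul_le_mul_of_nonneg_left (by linarith) (by linarith)
      rw [e3, abs_div, abs_neg, abs_of_pos hpow0, div_le_iff₀ hpow0]
      refine hb.trans (mul_le_mul hK2a hpow h2Q.le (Nat.cast_nonneg _))
    nlinarith [s1, s2, hc1]
  -- the errors
  have hCl : (r * (D + 3) + 1) * lg ≤ δ * μ * J := by
    refine le_trans ?_ hK
    rw [← hlg]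
    exact mul_le_mul_of_nonneg_right hCa hlg0
  rw [hRe] at hjet hjet0 hRdeg
  refine ⟨hRdeg, hT, fun ω ω' hω hω' e =>
    ⟨(H.TZ ω ω' hω hω' e).1, (H.TZ ω ω' hω hω' e).2.1⟩, ?_, ?_, ?_⟩
  · rw [← hp]
    have := hc1
    rw [hcs] at this
    refine this.trans (le_trans ?_ hCl)
    exact mul_le_mul_of_nonneg_right (by linarith) hlg0
  · rw [← hp]
    exact hjet0.trans hCl
  · intro j hj hj0
    rw [← hp]
    exact (hjet j hj hj0).trans hCl

/-- **All jets and coefficients of the own height over the reference line** are few bits, with the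
context, from natural sizes: one law. -/
theorem jets_nat (D : ℕ) {h : ℝ} (hh : 0 < h) (hh1 : h ≤ 1) {ε : ℝ} (hε : 0 < ε) :
    ∃ δ : ℝ, 0 < δ ∧ ∃ c₀ : ℝ, 0 < c₀ ∧ ∃ N₀ : ℕ, 0 < N₀ ∧ ∀ (r : ℕ),
    ∃ C : ℕ, ∀ {w μ : ℝ} (_ : 0 ≤ w) (_ : 0 < μ) (_ : w + μ ≤ 1),
    ∃ J₀ : ℕ, ∀ J ≥ J₀, ∀ {m : ℕ} (F : Fam m J) (A : F.Ω → Prop) (_ : 0 < Pe F.p A)
      {κ : Type} (d : Dat F κ r D) {Q : ℕ} {σ : ℝ} {K : ℕ} {γ : Type} {Y : F.Ω → γ},
    HopN d A ⌊w * J⌋₊ Q σ K Y → (Q : ℝ) ≤ μ * J →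
    C * Real.log (C * (K + 1)) ≤ δ * μ * J →
    (J : ℝ) * Real.log 2 - δ * μ * J ≤
      CH (Pool.Agent.H49.Ent.cond F.p A True) F.T (fun ω => (F.l ω, F.Z ω)) →
    Pool.AJ18.NFg F A (fun s => Polynomial.C σ * d.hL ⌊w * J⌋₊ A s) (fun s => d.cx s) ⌊w * J⌋₊ μ h
      (δ * μ) c₀ N₀ →
    CH (Pool.Agent.H49.Ent.cond F.p A True)
      (fun ω => (d.cx (slam F ⌊w * J⌋₊ ω),
        (fun j : Fin (D + 1 + 1) => ⌊pj F (fun s => Polynomial.C σ * d.hL ⌊w * J⌋₊ A s)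
            ⌊w * J⌋₊ j ω / 2 ^ (ε * μ * J)⌋,
          fun j : Fin (D + 1 + 1) => ⌊(Polynomial.C σ * d.hL ⌊w * J⌋₊ A
            (slam F ⌊w * J⌋₊ ω)).coeff j / 2 ^ (ε * μ * J)⌋))) Y ≤ 2 * ε * μ * J := by
  obtain ⟨δ₁, hδ₁, c₀, hc₀, N₀, hN₀, Hp⟩ := Pool.AJ18.all_jets (D + 1) (by omega) hh hh1 hε
  refine ⟨min δ₁ ε, lt_min hδ₁ hε, c₀, hc₀, N₀, hN₀, fun r => ?_⟩
  obtain ⟨C, HC⟩ := hopN_ajh r D
  refine ⟨C, ?_⟩
  intro w μ hw hμ hwμ
  obtain ⟨J₀, HJ⟩ := Hp hw hμ hwμ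
  refine ⟨J₀, ?_⟩
  intro J hJ m F A hA κ d Q σ K γ Y H hQμ hK hT hrow
  have hAj := HC F A hA d H hQμ hK hT
  have hJr : (0 : ℝ) ≤ J := Nat.cast_nonneg J
  have h0 := (isLaw_cond F.isLaw hA).nonneg
  have hfin := HJ J hJ F A hA _ (fun s => d.cx s) Y (hAj.mono hμ.le (min_le_left _ _)) (by
    intro B hB hBc i j hij hj
    refine (hrow B hB hBc i j hij hj).trans (mul_le_mul_of_nonneg_right ?_ hJr)
    have := mul_le_mul_of_nonneg_right (min_le_left δ₁ ε) hμ.le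
    linarith)
  have hcx := hAj.ctx
  have s0 := CH_subadd h0 (fun ω => d.cx (slam F ⌊w * J⌋₊ ω))
    (fun ω => (fun j : Fin (D + 1 + 1) => ⌊pj F (fun s => Polynomial.C σ * d.hL ⌊w * J⌋₊ A s)
            ⌊w * J⌋₊ j ω / 2 ^ (ε * μ * J)⌋,
          fun j : Fin (D + 1 + 1) => ⌊(Polynomial.C σ * d.hL ⌊w * J⌋₊ A
            (slam F ⌊w * J⌋₊ ω)).coeff j / 2 ^ (ε * μ * J)⌋)) Y
  have h1 : min δ₁ ε * μ * J ≤ ε * μ * J :=
    mul_le_mul_of_nonneg_right (mul_le_mul_of_nonneg_right (min_le_right _ _) hμ.le) hJr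
  linarith

/-- **The velocity of one coordinate is few bits**, if the slope of the target in its direction
has a large derivative along the own line. -/
theorem dead_blk (D : ℕ) (hD : 1 ≤ D) {h : ℝ} (hh : 0 < h) (hh1 : h ≤ 1) {ε : ℝ} (hε : 0 < ε) :
    ∃ δ : ℝ, 0 < δ ∧ ∃ c₀ : ℝ, 0 < c₀ ∧ ∃ N₀ : ℕ, 0 < N₀ ∧ ∀ (r : ℕ),
    ∃ C : ℕ, ∀ {w μ : ℝ} (_ : 0 ≤ w) (_ : 0 < μ) (_ : w + μ ≤ 1),
    ∃ J₀ : ℕ, ∀ J ≥ J₀, ∀ {m : ℕ} (F : Fam m J) (A : F.Ω → Prop) (_ : 0 < Pe F.p A)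
      {κ : Type} (d : Dat F κ r D) {Q : ℕ} {σ a₀ : ℝ} {K : ℕ} {γ : Type} {Y : F.Ω → γ} {k : ℕ}
      (_ : k < r) (_ : 0 ≤ a₀),
    HopN d A ⌊w * J⌋₊ Q σ K Y → (Q : ℝ) ≤ μ * J →
    C * Real.log (C * (K + 1)) ≤ δ * μ * J →
    (J : ℝ) * Real.log 2 - δ * μ * J ≤
      CH (Pool.Agent.H49.Ent.cond F.p A True) F.T (fun ω => (F.l ω, F.Z ω)) →
    Pool.AJ18.NFg F A (fun s => Polynomial.C σ * d.hL ⌊w * J⌋₊ A s) (fun s => d.cx s) ⌊w * J⌋₊ μ h
      (δ * μ) c₀ N₀ →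
    (∀ ω, A ω → a₀ ≤ |(d.gp k (slam F ⌊w * J⌋₊ ω)).coeff 1|) →
    (∀ ω, A ω → ∀ l < r, σ * |(d.gp l (slam F ⌊w * J⌋₊ ω)).coeff 2| ≤ K * d.SV l) →
    (∀ ω, A ω → ∀ l < r, l ≠ k → σ * |(d.gp l (slam F ⌊w * J⌋₊ ω)).coeff 1| ≤ K * d.SE l) →
    CH (Pool.Agent.H49.Ent.cond F.p A True)
      (fun ω => ⌊(a₀ * σ) * d.e ⌊w * J⌋₊ k ω⌋) Y ≤ ε * μ * J := by
  obtain ⟨δ₁, hδ₁, c₀, hc₀, N₀, hN₀, Hp⟩ := hop_nat D hD hh hh1 (half_pos hε)
  refine ⟨min δ₁ (ε / 2), lt_min hδ₁ (half_pos hε), c₀, hc₀, N₀, hN₀, fun r => ?_⟩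
  obtain ⟨C₁, HC⟩ := Hp r
  obtain ⟨C, hC⟩ : ∃ C : ℕ, C = C₁ + (4 * r + 7) := ⟨_, rfl⟩
  refine ⟨C, ?_⟩
  intro w μ hw hμ hwμ
  obtain ⟨J₀, HJ⟩ := HC hw hμ hwμ
  refine ⟨J₀, ?_⟩
  intro J hJ m F A hA κ d Q σ a₀ K γ Y k hk ha₀ H hQμ hK hT hrow g1 g2 g3
  have hJr : (0 : ℝ) ≤ J := Nat.cast_nonneg J
  have hK0 : (0 : ℝ) ≤ K := Nat.cast_nonneg K
  have hr0 : (0 : ℝ) ≤ r := Nat.cast_nonneg r
  have hC10 : (0 : ℝ) ≤ C₁ := Nat.cast_nonneg _
  have hCe : (C : ℝ) = C₁ + (4 * r + 7) := by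
    rw [hC]
    push_cast
    ring
  have m1 : min δ₁ (ε / 2) * μ * J ≤ δ₁ * μ * J :=
    mul_le_mul_of_nonneg_right (mul_le_mul_of_nonneg_right (min_le_left _ _) hμ.le) hJr
  have m2 : min δ₁ (ε / 2) * μ * J ≤ ε / 2 * μ * J :=
    mul_le_mul_of_nonneg_right (mul_le_mul_of_nonneg_right (min_le_right _ _) hμ.le) hJr
  obtain ⟨lg, hlg⟩ : ∃ lg : ℝ, lg = Real.log (C * (K + 1)) := ⟨_, rfl⟩
  have hlg0 : 0 ≤ lg := by
    rw [hlg]
    refine Real.log_nonneg ?_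
    rw [hCe]
    nlinarith
  rw [← hlg] at hK
  have hl1 : lg ≤ C * lg := by
    rw [hCe]
    nlinarith
  have hK' : (C₁ : ℝ) * Real.log (C₁ * (K + 1)) ≤ δ₁ * μ * J := by
    refine le_trans ?_ (hK.trans m1)
    rcases Nat.eq_zero_or_pos C₁ with h1 | h1
    · rw [h1]
      simp only [Nat.cast_zero, zero_mul]
      exact mul_nonneg (Nat.cast_nonneg _) hlg0
    · have h2 : (1 : ℝ) ≤ C₁ := by exact_mod_cast h1
      have h3 : Real.log (C₁ * (K + 1)) ≤ lg := by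
        rw [hlg]
        refine Real.log_le_log (by positivity) ?_
        refine mul_le_mul_of_nonneg_right ?_ (by positivity)
        rw [hCe]
        linarith
      calc (C₁ : ℝ) * Real.log (C₁ * (K + 1)) ≤ C₁ * lg := mul_le_mul_of_nonneg_left h3 hC10
        _ ≤ C * lg := mul_le_mul_of_nonneg_right (by rw [hCe]; linarith) hlg0
  have hfin := HJ J hJ F A hA d H hQμ hK' (le_trans (by linarith) hT) (by
    intro B hB hBc i j hij hj
    refine (hrow B hB hBc i j hij hj).trans (mul_le_mul_of_nonneg_right ?_ hJr)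
    have := mul_le_mul_of_nonneg_right (min_le_left δ₁ (ε / 2)) hμ.le
    linarith)
  obtain ⟨p, hp⟩ : ∃ p : F.Ω → ℝ, p = Pool.Agent.H49.Ent.cond F.p A True := ⟨_, rfl⟩
  have hpl : IsLaw p := by
    rw [hp]
    exact isLaw_cond F.isLaw hA
  have h0 := hpl.nonneg
  have hpA : ∀ ω, 0 < p ω → A ω := fun ω hω => by
    rw [hp] at hω
    exact of_cond_pos hω
  rw [← hp] at hfin ⊢
  obtain ⟨W, hW⟩ : ∃ W : ℕ, W = ⌊w * J⌋₊ := ⟨_, rfl⟩
  rw [← hW] at H g1 g2 g3 hfin ⊢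
  have hσ := H.σ0
  have s1 := CH_step h0 (fun ω => ⌊(a₀ * σ) * d.e W k ω⌋) (fun ω => (d.cx (slam F W ω),
        ⌊σ * d.nb W A (slam F W ω)⌋)) Y
  have s2 : CH p (fun ω => ⌊(a₀ * σ) * d.e W k ω⌋) (fun ω => ((d.cx (slam F W ω),
        ⌊σ * d.nb W A (slam F W ω)⌋), Y ω)) ≤ Real.log (2 * ((2 * r * K + 2 : ℕ) : ℝ) + 1) := by
    refine CH_pair hpl _ _ (D := 2 * r * K + 2) fun ω ω' hω hω' e => ?_
    simp only [Prod.mk.injEq] at e
    obtain ⟨⟨e1, e2⟩, -⟩ := e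
    obtain ⟨ω₀, q1, q2, q3⟩ := d.rfo_spec (W := W) (hpA ω hω)
    have k1 : d.nb W A (slam F W ω) = num r (fun l => d.P l (slam F W ω))
        (fun l => d.gp l (slam F W ω₀)) := by
      unfold Dat.nb
      rw [q1]
      rfl
    have k2 : d.nb W A (slam F W ω') = num r (fun l => d.P l (slam F W ω'))
        (fun l => d.gp l (slam F W ω₀)) := by
      unfold Dat.nb
      rw [← e1, q1]
      rfl
    have k3 : |σ * d.nb W A (slam F W ω) - σ * d.nb W A (slam F W ω')| ≤ 1 := by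
      have := of_floor_div (m := 1) one_pos (by simp only [div_one]; exact e2)
      simpa using this
    rw [k1, k2] at k3
    unfold num at k3
    rw [← mul_sub, ← Finset.sum_sub_distrib,
      ← Finset.add_sum_erase _ _ (Finset.mem_range.2 hk)] at k3
    -- the pieces
    have t1 : ∀ l < r, σ * |(d.gp l (slam F W ω₀)).coeff 2 *
        ((d.P l (slam F W ω)).coeff 0 - (d.P l (slam F W ω')).coeff 0)| ≤ K := by
      intro l hl
      obtain ⟨a1, a2, -⟩ := cx_near H.toHopP e1 hl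
      have h1 := H.SV0 l hl
      have h2 := g2 ω₀ q2 l hl
      rw [abs_mul, ← mul_assoc]
      calc σ * |(d.gp l (slam F W ω₀)).coeff 2| *
          |(d.P l (slam F W ω)).coeff 0 - (d.P l (slam F W ω')).coeff 0|
          ≤ (K * d.SV l) * (1 / d.SV l) := mul_le_mul h2 a1 (abs_nonneg _) (by positivity)
        _ = K := by field_simp
    have t2 : ∀ l < r, l ≠ k → σ * |(d.gp l (slam F W ω₀)).coeff 1 *
        ((d.P l (slam F W ω)).coeff 1 - (d.P l (slam F W ω')).coeff 1)| ≤ K := by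
      intro l hl hlk
      obtain ⟨a1, a2, -⟩ := cx_near H.toHopP e1 hl
      have h1 : 0 < d.SE l := lt_of_lt_of_le (H.SV0 l hl) (H.SVE l hl)
      have h2 := g3 ω₀ q2 l hl hlk
      rw [abs_mul, ← mul_assoc]
      calc σ * |(d.gp l (slam F W ω₀)).coeff 1| *
          |(d.P l (slam F W ω)).coeff 1 - (d.P l (slam F W ω')).coeff 1|
          ≤ (K * d.SE l) * (1 / d.SE l) := mul_le_mul h2 a2 (abs_nonneg _) (by positivity)
        _ = K := by field_simp
    have t3 : σ * |∑ x ∈ (range r).erase k,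
        ((d.gp x (slam F W ω₀)).coeff 2 * (d.P x (slam F W ω)).coeff 0 +
          (d.gp x (slam F W ω₀)).coeff 1 * (d.P x (slam F W ω)).coeff 1 -
          ((d.gp x (slam F W ω₀)).coeff 2 * (d.P x (slam F W ω')).coeff 0 +
            (d.gp x (slam F W ω₀)).coeff 1 * (d.P x (slam F W ω')).coeff 1))| ≤
        (r - 1) * (2 * K) := by
      refine (mul_le_mul_of_nonneg_left (Finset.abs_sum_le_sum_abs _ _) hσ).trans ?_
      rw [Finset.mul_sum]
      refine (Finset.sum_le_sum (g := fun _ => 2 * (K : ℝ)) fun l hl => ?_).trans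
        (le_of_eq ?_)
      · obtain ⟨b1, b2⟩ := Finset.mem_erase.1 hl
        have b3 := Finset.mem_range.1 b2
        have e4 : (d.gp l (slam F W ω₀)).coeff 2 * (d.P l (slam F W ω)).coeff 0 +
          (d.gp l (slam F W ω₀)).coeff 1 * (d.P l (slam F W ω)).coeff 1 -
          ((d.gp l (slam F W ω₀)).coeff 2 * (d.P l (slam F W ω')).coeff 0 +
            (d.gp l (slam F W ω₀)).coeff 1 * (d.P l (slam F W ω')).coeff 1) =
            (d.gp l (slam F W ω₀)).coeff 2 *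
            ((d.P l (slam F W ω)).coeff 0 - (d.P l (slam F W ω')).coeff 0) +
            (d.gp l (slam F W ω₀)).coeff 1 *
            ((d.P l (slam F W ω)).coeff 1 - (d.P l (slam F W ω')).coeff 1) := by ring
        rw [e4]
        refine (mul_le_mul_of_nonneg_left (abs_add_le _ _) hσ).trans ?_
        rw [mul_add]
        linarith [t1 l b3, t2 l b3 b1]
      · rw [Finset.sum_const, Finset.card_erase_of_mem (Finset.mem_range.2 hk),
          Finset.card_range, nsmul_eq_mul, Nat.cast_sub (by omega : 1 ≤ r), Nat.cast_one]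
    refine floor_sub_le ?_
    have e5 : d.e W k ω - d.e W k ω' =
        (d.P k (slam F W ω)).coeff 1 - (d.P k (slam F W ω')).coeff 1 := rfl
    have t4 : σ * |(d.gp k (slam F W ω₀)).coeff 1 *
        ((d.P k (slam F W ω)).coeff 1 - (d.P k (slam F W ω')).coeff 1)| ≤ 2 * r * K + 1 := by
      have u1 := t1 k hk
      have e6 : (d.gp k (slam F W ω₀)).coeff 1 *
        ((d.P k (slam F W ω)).coeff 1 - (d.P k (slam F W ω')).coeff 1) =
        (((d.gp k (slam F W ω₀)).coeff 2 * (d.P k (slam F W ω)).coeff 0 +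
          (d.gp k (slam F W ω₀)).coeff 1 * (d.P k (slam F W ω)).coeff 1 -
          ((d.gp k (slam F W ω₀)).coeff 2 * (d.P k (slam F W ω')).coeff 0 +
            (d.gp k (slam F W ω₀)).coeff 1 * (d.P k (slam F W ω')).coeff 1)) +
          ∑ x ∈ (range r).erase k,
        ((d.gp x (slam F W ω₀)).coeff 2 * (d.P x (slam F W ω)).coeff 0 +
          (d.gp x (slam F W ω₀)).coeff 1 * (d.P x (slam F W ω)).coeff 1 -
          ((d.gp x (slam F W ω₀)).coeff 2 * (d.P x (slam F W ω')).coeff 0 +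
            (d.gp x (slam F W ω₀)).coeff 1 * (d.P x (slam F W ω')).coeff 1))) -
          (d.gp k (slam F W ω₀)).coeff 2 *
            ((d.P k (slam F W ω)).coeff 0 - (d.P k (slam F W ω')).coeff 0) -
          ∑ x ∈ (range r).erase k,
        ((d.gp x (slam F W ω₀)).coeff 2 * (d.P x (slam F W ω)).coeff 0 +
          (d.gp x (slam F W ω₀)).coeff 1 * (d.P x (slam F W ω)).coeff 1 -
          ((d.gp x (slam F W ω₀)).coeff 2 * (d.P x (slam F W ω')).coeff 0 +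
            (d.gp x (slam F W ω₀)).coeff 1 * (d.P x (slam F W ω')).coeff 1)) := by ring
      rw [e6]
      refine (mul_le_mul_of_nonneg_left ((abs_sub _ _).trans
        (add_le_add (abs_sub _ _) le_rfl)) hσ).trans ?_
      rw [mul_add, mul_add]
      rw [abs_mul, abs_of_nonneg hσ] at k3
      have : (r - 1) * (2 * (K : ℝ)) = 2 * r * K - 2 * K := by ring
      linarith
    rw [← mul_sub, e5, abs_mul, abs_of_nonneg (mul_nonneg ha₀ hσ)]
    have t5 : a₀ * σ * |(d.P k (slam F W ω)).coeff 1 - (d.P k (slam F W ω')).coeff 1| ≤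
        σ * |(d.gp k (slam F W ω₀)).coeff 1 *
        ((d.P k (slam F W ω)).coeff 1 - (d.P k (slam F W ω')).coeff 1)| := by
      rw [abs_mul]
      have := mul_le_mul_of_nonneg_right (mul_le_mul_of_nonneg_left (g1 ω₀ q2) hσ)
        (abs_nonneg ((d.P k (slam F W ω)).coeff 1 - (d.P k (slam F W ω')).coeff 1))
      linarith
    push_cast
    linarith
  have hl2 : Real.log (2 * ((2 * r * K + 2 : ℕ) : ℝ) + 1) ≤ lg := by
    rw [hlg]
    refine Real.log_le_log (by positivity) ?_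
    rw [hCe]
    push_cast
    nlinarith [mul_nonneg hr0 hK0, mul_nonneg hC10 hK0]
  linarith

/-- **Many short blocks**: the blocks `E (i + 1)` are few bits given `E i`, the digits `c` of the
slopes and `Y`; `c` has few digits. -/
theorem dead_run {Ω Γ C : Type} [Fintype Ω] {p : Ω → ℝ} (hp : IsLaw p) (Y : Ω → Γ) (c : Ω → C)
    (E : ℕ → Ω → ℤ) {e₀ k x : ℝ} {n : ℕ} (h0 : CH p (E 0) Y ≤ e₀) (hc : CH p c Y ≤ k)
    (hE : ∀ i < n, CH p (E (i + 1)) (fun ω => (E i ω, (c ω, Y ω))) ≤ x) :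
    CH p (E n) Y ≤ e₀ + k + n * x := by
  have hn := hp.nonneg
  have key : ∀ i ≤ n, CH p (E i) (fun ω => (c ω, Y ω)) ≤ e₀ + i * x := by
    intro i
    induction i with
    | zero =>
      intro _
      have h1 : CH p (E 0) (fun ω => (c ω, Y ω)) ≤ CH p (E 0) Y :=
        CH_mono_cond hn fun ω ω' _ _ e => (Prod.ext_iff.mp e).2
      simp only [Nat.cast_zero, zero_mul, add_zero]
      exact h1.trans h0
    | succ i ih =>
      intro hi
      have h1 := ih (by omega)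
      have h2 := hE i (by omega)
      have h3 := CH_step hn (E (i + 1)) (E i) (fun ω => (c ω, Y ω))
      push_cast
      linarith
  have h1 := key n le_rfl
  have h2 := CH_step hn (E n) c Y
  linarith

end Pool.SLW13
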