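import Pool.Agent.H64.D2.Vh

/-!
# The moving slope

Three lines `l₁, l₂, l₃`: `l₁, l₂` meet at the time `T₀`, `l₂, l₃` meet at the time `T₁`. The velocity
of the coordinate `N` of a copy is `s(T)` times the velocity of the coordinate `v`, and `s` moves:
`s(τ) - s(T) = g (τ - T) / M`. If `|g| ≥ g₀` and the velocities of `v` are at least `m₀` apart, the
pair `(v, N)` of `l₃` at a time `τ` determines `(T₀, T₁)`: so `N` is full given `v`.
-/

set_option autoImplicit false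

namespace Pool.SLW13

open Finset Real
open Pool.Agent.H49.Ent Pool.Agent.H32.Dense Pool.STK Pool.OWN68 Pool.VH64

/-- The time of the first meeting. -/
theorem near0 {m₀ g₀ r a b d1 d2 g x0 x1 y0 y1 : ℝ} (hm₀ : 0 < m₀) (hg₀ : 0 < g₀) (hr : 0 < r)
    (hd : m₀ ≤ |d1|) (hg : g₀ ≤ |g|) (hx1 : |x1| ≤ 2) (hy1 : |y1| ≤ 2)
    (h1 : |(d1 * x0 + d2 * x1) - (d1 * y0 + d2 * y1)| ≤ a)
    (h2 : |g * (d1 * x0 ^ 2 + d2 * x1 ^ 2) - g * (d1 * y0 ^ 2 + d2 * y1 ^ 2)| ≤ b)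
    (hs : (r ≤ x0 - x1 ∧ r ≤ y0 - y1) ∨ (r ≤ x1 - x0 ∧ r ≤ y1 - y0)) :
    |x0 - y0| ≤ (b / g₀ + 4 * a) / (2 * r * m₀) := by
  have h3 : |(d1 * x0 ^ 2 + d2 * x1 ^ 2) - (d1 * y0 ^ 2 + d2 * y1 ^ 2)| ≤ b / g₀ := by
    rw [le_div_iff₀ hg₀, mul_comm]
    rw [← mul_sub, abs_mul] at h2
    exact (mul_le_mul_of_nonneg_right hg (abs_nonneg _)).trans h2
  have h4 : |x1 + y1| ≤ 4 := (abs_add_le _ _).trans (by linarith)
  have e1 : d1 * ((x0 - y0) * ((x0 + y0) - (x1 + y1))) =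
      ((d1 * x0 ^ 2 + d2 * x1 ^ 2) - (d1 * y0 ^ 2 + d2 * y1 ^ 2)) -
        (x1 + y1) * ((d1 * x0 + d2 * x1) - (d1 * y0 + d2 * y1)) := by ring
  have h5 : |d1 * ((x0 - y0) * ((x0 + y0) - (x1 + y1)))| ≤ b / g₀ + 4 * a := by
    rw [e1]
    refine (abs_sub _ _).trans ?_
    rw [abs_mul (x1 + y1)]
    have := mul_le_mul h4 h1 (abs_nonneg _) (by norm_num)
    linarith
  have h6 : 2 * r ≤ |(x0 + y0) - (x1 + y1)| := by
    rcases hs with ⟨h7, h8⟩ | ⟨h7, h8⟩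
    · exact (le_trans (by linarith) (le_abs_self _))
    · rw [abs_sub_comm]
      exact (le_trans (by linarith) (le_abs_self _))
  rw [le_div_iff₀ (by positivity)]
  rw [abs_mul, abs_mul] at h5
  calc |x0 - y0| * (2 * r * m₀) = m₀ * (|x0 - y0| * (2 * r)) := by ring
    _ ≤ |d1| * (|x0 - y0| * |(x0 + y0) - (x1 + y1)|) := by
        refine mul_le_mul hd ?_ (by positivity) (abs_nonneg _)
        exact mul_le_mul_of_nonneg_left h6 (abs_nonneg _)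
    _ ≤ _ := h5

/-- A sum over a box. -/
theorem sum_inv_le {M : ℕ} (w : ℤ) (hw : |w| ≤ (M : ℤ)) (F : Finset ℤ) :
    ∑ x ∈ F, (if |x| ≤ (M : ℤ) then 1 / (|(w : ℝ) - x| + 1) else 0) ≤
      2 * (1 + Real.log (2 * M + 1)) := by
  classical
  rw [← Finset.sum_filter]
  -- the distances
  have h1 : ∀ G : Finset ℤ, (∀ x ∈ G, |x| ≤ (M : ℤ)) → Set.InjOn (fun x : ℤ => (w - x).natAbs) G →
      ∑ x ∈ G, 1 / (|(w : ℝ) - x| + 1) ≤ 1 + Real.log (2 * M + 1) := by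
    intro G hG hinj
    have e1 : ∑ x ∈ G, 1 / (|(w : ℝ) - x| + 1) =
        ∑ i ∈ G.image (fun x : ℤ => (w - x).natAbs), 1 / ((i : ℝ) + 1) := by
      rw [Finset.sum_image hinj]
      refine Finset.sum_congr rfl fun x _ => ?_
      rw [Nat.cast_natAbs]
      push_cast
      rfl
    rw [e1]
    have e2 : G.image (fun x : ℤ => (w - x).natAbs) ⊆ Finset.range (2 * M + 1) := by
      intro i hi
      obtain ⟨x, hx, rfl⟩ := Finset.mem_image.mp hi
      have h3 := abs_le.mp (hG x hx)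
      have h4 := abs_le.mp hw
      rw [Finset.mem_range]
      omega
    refine (Finset.sum_le_sum_of_subset_of_nonneg e2 fun i _ _ => by positivity).trans ?_
    have e3 := harmonic_le_one_add_log (2 * M + 1)
    unfold harmonic at e3
    push_cast at e3
    refine le_of_eq_of_le ?_ e3
    refine Finset.sum_congr rfl fun i _ => ?_
    rw [one_div]
  have h2 : (F.filter fun x => |x| ≤ (M : ℤ)) =
      (F.filter fun x => |x| ≤ (M : ℤ)).filter (fun x => x ≤ w) ∪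
        (F.filter fun x => |x| ≤ (M : ℤ)).filter (fun x => ¬ x ≤ w) :=
    (Finset.filter_union_filter_not_eq _ _).symm
  rw [h2, Finset.sum_union (Finset.disjoint_filter_filter_not _ _ _)]
  have h3 := h1 ((F.filter fun x => |x| ≤ (M : ℤ)).filter (fun x => x ≤ w))
    (fun x hx => (Finset.mem_filter.mp (Finset.mem_filter.mp hx).1).2) (by
      intro x hx y hy hxy
      have h4 := (Finset.mem_filter.mp (Finset.mem_coe.mp hx)).2
      have h5 := (Finset.mem_filter.mp (Finset.mem_coe.mp hy)).2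
      simp only at hxy
      omega)
  have h4 := h1 ((F.filter fun x => |x| ≤ (M : ℤ)).filter (fun x => ¬ x ≤ w))
    (fun x hx => (Finset.mem_filter.mp (Finset.mem_filter.mp hx).1).2) (by
      intro x hx y hy hxy
      have h4 := (Finset.mem_filter.mp (Finset.mem_coe.mp hx)).2
      have h5 := (Finset.mem_filter.mp (Finset.mem_coe.mp hy)).2
      simp only at hxy
      omega)
  linarith

/-- **Two times are far apart.** -/
theorem sep_log {Ω : Type} [Fintype Ω] {Q : Ω → ℝ} (hQ : IsLaw Q) {M : ℕ} (T0 T1 : Ω → ℤ)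
    (h0 : ∀ ω, 0 < Q ω → |T0 ω| ≤ (M : ℤ)) (h1 : ∀ ω, 0 < Q ω → |T1 ω| ≤ (M : ℤ)) {e : ℝ}
    (hf : Real.log (2 * M + 1) - e ≤ CH Q T1 T0) :
    Real.log (2 * M + 1) - e - Real.log (2 * (1 + Real.log (2 * M + 1))) ≤
      Ex Q (fun ω => Real.log (|(T0 ω : ℝ) - T1 ω| + 1)) := by
  classical
  have hlog : 0 ≤ Real.log (2 * (M : ℝ) + 1) := Real.log_nonneg (by
    have : (0 : ℝ) ≤ M := Nat.cast_nonneg M
    linarith)
  set Lg : ℝ := 2 * (1 + Real.log (2 * M + 1)) with hLg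
  have hLg0 : 0 < Lg := by rw [hLg]; linarith
  have h2 := CH_le_cross hQ.nonneg hQ.sum_one T1 T0
    (fun w x => (if |x| ≤ (M : ℤ) then 1 / (|(w : ℝ) - x| + 1) else 0) / Lg)
    (by
      intro ω hω
      rw [if_pos (h1 ω hω)]
      positivity)
    (by
      intro w x
      split_ifs <;> positivity)
    (by
      intro ω hω F
      rw [← Finset.sum_div, div_le_one hLg0]
      exact sum_inv_le (T0 ω) (h0 ω hω) F)
  have h3 : Ex Q (fun ω => -Real.log ((if |T1 ω| ≤ (M : ℤ) then 1 / (|(T0 ω : ℝ) - T1 ω| + 1)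
      else 0) / Lg)) ≤ Ex Q (fun ω => Real.log (|(T0 ω : ℝ) - T1 ω| + 1) + Real.log Lg) := by
    refine Ex_mono hQ.nonneg fun ω hω => ?_
    rw [if_pos (h1 ω hω), Real.log_div (by positivity) hLg0.ne', one_div, Real.log_inv]
    linarith
  rw [Ex_add, Ex_const hQ.sum_one] at h3
  linarith

/-- The record of the position of two times. -/
noncomputable def rc (T0 T1 : ℤ) : Bool × ℕ :=
  (decide (T0 < T1), Nat.log 2 ((T0 - T1).natAbs + 1))

theorem rc_mem {M : ℕ} {T0 T1 : ℤ} (h0 : |T0| ≤ (M : ℤ)) (h1 : |T1| ≤ (M : ℤ)) :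
    rc T0 T1 ∈ (Finset.univ : Finset Bool) ×ˢ Finset.range (Nat.log 2 (2 * M + 1) + 1) := by
  rw [Finset.mem_product]
  refine ⟨Finset.mem_univ _, Finset.mem_range.mpr (Nat.lt_succ_of_le ?_)⟩
  show Nat.log 2 _ ≤ _
  refine Nat.log_mono_right ?_
  have := abs_le.mp h0
  have := abs_le.mp h1
  omega

/-- The separation from the record. -/
theorem rc_sep {T0 T1 S0 S1 : ℤ} (h : rc T0 T1 = rc S0 S1) :
    (T0 = T1 ∧ S0 = S1) ∨
      ((((|(T0 : ℝ) - T1| + 1) / 4 ≤ (T0 : ℝ) - T1 ∧ (|(T0 : ℝ) - T1| + 1) / 4 ≤ (S0 : ℝ) - S1) ∨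
      ((|(T0 : ℝ) - T1| + 1) / 4 ≤ (T1 : ℝ) - T0 ∧ (|(T0 : ℝ) - T1| + 1) / 4 ≤ (S1 : ℝ) - S0))) := by
  unfold rc at h
  obtain ⟨h1, h2⟩ := Prod.ext_iff.mp h
  simp only at h1 h2
  set j := Nat.log 2 ((T0 - T1).natAbs + 1) with hj
  have a1 : 2 ^ j ≤ (T0 - T1).natAbs + 1 := Nat.pow_log_le_self 2 (by omega)
  have a2 : (T0 - T1).natAbs + 1 < 2 ^ (j + 1) := Nat.lt_pow_succ_log_self (by norm_num) _
  have a3 : 2 ^ j ≤ (S0 - S1).natAbs + 1 := by
    rw [h2]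
    exact Nat.pow_log_le_self 2 (by omega)
  have a4 : (S0 - S1).natAbs + 1 < 2 ^ (j + 1) := by
    rw [h2]
    exact Nat.lt_pow_succ_log_self (by norm_num) _
  rcases Nat.eq_zero_or_pos j with hj0 | hj0
  · left
    rw [hj0] at a2 a4
    norm_num at a2 a4
    omega
  · right
    have a5 : 2 ≤ 2 ^ j := by
      calc 2 = 2 ^ 1 := by norm_num
        _ ≤ 2 ^ j := Nat.pow_le_pow_right (by norm_num) hj0
    rw [pow_succ] at a2 a4
    have key : ((T0 - T1).natAbs : ℤ) + 1 ≤ 4 * ((S0 - S1).natAbs : ℤ) ∧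
        ((T0 - T1).natAbs : ℤ) + 1 ≤ 4 * ((T0 - T1).natAbs : ℤ) := by
      constructor <;> omega
    have hsgn : (T0 < T1 ↔ S0 < S1) := by
      constructor
      · intro h3
        by_contra h4
        rw [decide_eq_true h3, decide_eq_false h4] at h1
        exact absurd h1 (by decide)
      · intro h3
        by_contra h4
        rw [decide_eq_true h3, decide_eq_false h4] at h1
        exact absurd h1 (by decide)
    by_cases h3 : T0 < T1
    · right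
      have h4 := hsgn.mp h3
      have k1 : (T1 - T0) + 1 ≤ 4 * (S1 - S0) ∧ (T1 - T0) + 1 ≤ 4 * (T1 - T0) := by
        constructor <;> omega
      have k2 : (((T1 - T0) + 1 : ℤ) : ℝ) ≤ ((4 * (S1 - S0) : ℤ) : ℝ) := Int.cast_le.mpr k1.1
      have k3 : (((T1 - T0) + 1 : ℤ) : ℝ) ≤ ((4 * (T1 - T0) : ℤ) : ℝ) := Int.cast_le.mpr k1.2
      push_cast at k2 k3
      have k4 : |(T0 : ℝ) - T1| = T1 - T0 := by
        rw [abs_sub_comm, abs_of_pos]
        have : (T0 : ℝ) < T1 := by exact_mod_cast h3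
        linarith
      rw [k4]
      constructor <;> linarith
    · left
      have h4 : ¬ S0 < S1 := fun h => h3 (hsgn.mpr h)
      have k1 : (T0 - T1) + 1 ≤ 4 * (S0 - S1) ∧ (T0 - T1) + 1 ≤ 4 * (T0 - T1) := by
        constructor <;> omega
      have k2 : (((T0 - T1) + 1 : ℤ) : ℝ) ≤ ((4 * (S0 - S1) : ℤ) : ℝ) := Int.cast_le.mpr k1.1
      have k3 : (((T0 - T1) + 1 : ℤ) : ℝ) ≤ ((4 * (T0 - T1) : ℤ) : ℝ) := Int.cast_le.mpr k1.2
      push_cast at k2 k3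
      have k4 : |(T0 : ℝ) - T1| = T0 - T1 := by
        rw [abs_of_nonneg]
        have : (T1 : ℝ) ≤ T0 := by exact_mod_cast (not_lt.mp h3)
        linarith
      rw [k4]
      constructor <;> linarith

/-- **Two times are few bits given the displacement and the defect.** -/
theorem two_times {Ω T : Type} [Fintype Ω] {Q : Ω → ℝ} (hQ : IsLaw Q) {M : ℕ} (hM : 1 ≤ M)
    (T0 T1 : Ω → ℤ) (Z : Ω → T) (x d1 d2 g α β : T → ℝ) {m₀ g₀ a b e : ℝ}
    (hm₀ : 0 < m₀) (hmM : m₀ ≤ M) (hg₀ : 0 < g₀) (ha : 1 ≤ a) (hb : 0 ≤ b)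
    (h0 : ∀ ω, 0 < Q ω → |T0 ω| ≤ (M : ℤ)) (h1 : ∀ ω, 0 < Q ω → |T1 ω| ≤ (M : ℤ))
    (hx : ∀ ω, 0 < Q ω → |x (Z ω)| ≤ M)
    (hd1 : ∀ ω, 0 < Q ω → m₀ ≤ |d1 (Z ω)|) (hd2 : ∀ ω, 0 < Q ω → m₀ ≤ |d2 (Z ω)|)
    (hg : ∀ ω, 0 < Q ω → g₀ ≤ |g (Z ω)|)
    (hα : ∀ ω, 0 < Q ω → |(d1 (Z ω) * ((x (Z ω) - T0 ω) / M) +
      d2 (Z ω) * ((x (Z ω) - T1 ω) / M)) - α (Z ω)| ≤ a)
    (hβ : ∀ ω, 0 < Q ω → |g (Z ω) * (d1 (Z ω) * ((x (Z ω) - T0 ω) / M) ^ 2 +
      d2 (Z ω) * ((x (Z ω) - T1 ω) / M) ^ 2) - β (Z ω)| ≤ b)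
    (hf : Real.log (2 * M + 1) - e ≤ CH Q T1 T0) :
    CH Q (fun ω => (T0 ω, T1 ω)) Z ≤
      Real.log (60 * a * (b / g₀ + 4 * a)) + 2 * (Real.log M - Real.log m₀) + e +
        Real.log (2 * (1 + Real.log (2 * M + 1))) +
        Real.log (2 * ((Nat.log 2 (2 * M + 1) : ℝ) + 1)) := by
  classical
  have q0 := hQ.nonneg
  have hMr : (1 : ℝ) ≤ M := by exact_mod_cast hM
  have hM0 : (0 : ℝ) < M := by linarith
  have hsep := sep_log hQ T0 T1 h0 h1 hf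
  set R : Ω → Bool × ℕ := fun ω => rc (T0 ω) (T1 ω) with hR
  have hbg : 0 ≤ b / g₀ := div_nonneg hb hg₀.le
  -- the record
  have c1 : CH Q R Z ≤ Real.log (2 * ((Nat.log 2 (2 * M + 1) : ℝ) + 1)) := by
    have h := CH_le_few hQ R Z (N := 2 * (Nat.log 2 (2 * M + 1) + 1))
      (fun _ => (Finset.univ : Finset Bool) ×ˢ Finset.range (Nat.log 2 (2 * M + 1) + 1))
      (fun _ => le_of_eq (by
        rw [Finset.card_product, Finset.card_univ, Fintype.card_bool, Finset.card_range]))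
      (fun ω hω => rc_mem (h0 ω hω) (h1 ω hω))
    push_cast at h
    exact h
  -- bounds of the positions
  have xb : ∀ ω, 0 < Q ω → ∀ {t : ℤ}, |t| ≤ (M : ℤ) → |(x (Z ω) - t) / M| ≤ 2 := by
    intro ω hω t ht
    have h2 : |(t : ℝ)| ≤ M := by
      rw [← Int.cast_abs]
      exact_mod_cast ht
    rw [abs_div, abs_of_pos hM0, div_le_iff₀ hM0]
    exact (abs_sub _ _).trans (by linarith [hx ω hω])
  -- the first time
  have c2 : CH Q T0 (fun ω => (R ω, Z ω)) ≤ Ex Q (fun ω => Real.log (2 *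
      (4 * M ^ 2 * (b / g₀ + 4 * a) / ((|(T0 ω : ℝ) - T1 ω| + 1) * m₀)) + 1)) := by
    refine CH_le_int q0 hQ.sum_one T0 (fun ω => (R ω, Z ω)) _ ?_
    intro ω ω' hω hω' hW
    obtain ⟨hW1, hW2⟩ := Prod.ext_iff.mp hW
    simp only at hW1 hW2
    have b0 := h0 ω hω
    have b0' := h0 ω' hω'
    have b1 := h1 ω hω
    have b1' := h1 ω' hω'
    rcases rc_sep hW1 with ⟨e1, _⟩ | hs
    · rw [e1]
      have h2 : |((T1 ω - T0 ω' : ℤ) : ℝ)| ≤ 2 * M := by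
        have h3 := abs_le.mp b1
        have h4 := abs_le.mp b0'
        have h5 : |T1 ω - T0 ω'| ≤ 2 * (M : ℤ) := by
          rw [abs_le]
          constructor <;> linarith [h3.1, h3.2, h4.1, h4.2]
        rw [← Int.cast_abs]
        exact_mod_cast h5
      refine h2.trans ?_
      rw [sub_self, abs_zero, zero_add, one_mul, le_div_iff₀ hm₀]
      have h3 : m₀ ≤ M * a := hmM.trans (le_mul_of_one_le_right hM0.le ha)
      have h4 : (M : ℝ) ^ 2 * (b / g₀) ≥ 0 := by positivity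
      have h5 : 2 * (M : ℝ) * m₀ ≤ 2 * M * (M * a) := mul_le_mul_of_nonneg_left h3 (by positivity)
      nlinarith [mul_nonneg (mul_nonneg hM0.le hM0.le) (by linarith : (0 : ℝ) ≤ a)]
    · set r : ℝ := (|(T0 ω : ℝ) - T1 ω| + 1) / 4 with hr
      have hr0 : 0 < r := by positivity
      have hrM : 0 < r / M := by positivity
      have n0 := near0 (m₀ := m₀) (g₀ := g₀) (r := r / M) (a := 2 * a) (b := 2 * b)
        (d1 := d1 (Z ω')) (d2 := d2 (Z ω')) (g := g (Z ω'))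
        (x0 := (x (Z ω') - T0 ω) / M) (x1 := (x (Z ω') - T1 ω) / M)
        (y0 := (x (Z ω') - T0 ω') / M) (y1 := (x (Z ω') - T1 ω') / M)
        hm₀ hg₀ hrM (hd1 ω' hω') (hg ω' hω') (xb ω' hω' b1) (xb ω' hω' b1')
        (by
          have k1 := hα ω hω
          rw [hW2] at k1
          have k2 := hα ω' hω'
          rw [abs_le] at k1 k2 ⊢
          constructor <;> linarith [k1.1, k1.2, k2.1, k2.2])
        (by
          have k1 := hβ ω hω
          rw [hW2] at k1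
          have k2 := hβ ω' hω'
          rw [abs_le] at k1 k2 ⊢
          constructor <;> linarith [k1.1, k1.2, k2.1, k2.2])
        (by
          rcases hs with ⟨s1, s2⟩ | ⟨s1, s2⟩
          · right
            constructor
            · rw [← sub_div, div_le_div_iff_of_pos_right hM0]
              linarith
            · rw [← sub_div, div_le_div_iff_of_pos_right hM0]
              linarith
          · left
            constructor
            · rw [← sub_div, div_le_div_iff_of_pos_right hM0]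
              linarith
            · rw [← sub_div, div_le_div_iff_of_pos_right hM0]
              linarith)
      have e2 : (x (Z ω') - T0 ω) / M - (x (Z ω') - T0 ω') / M = -(((T0 ω - T0 ω' : ℤ) : ℝ) / M) := by
        push_cast
        ring
      rw [e2, abs_neg, abs_div, abs_of_pos hM0, div_le_iff₀ hM0] at n0
      refine n0.trans (le_of_eq ?_)
      have hr4 : |(T0 ω : ℝ) - T1 ω| + 1 = 4 * r := by rw [hr]; ring
      rw [hr4]
      field_simp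
  -- the second time
  have c3 : CH Q T1 (fun ω => (T0 ω, (R ω, Z ω))) ≤ Ex Q (fun _ => Real.log (2 *
      (2 * a * M / m₀) + 1)) := by
    refine CH_le_int q0 hQ.sum_one T1 (fun ω => (T0 ω, (R ω, Z ω))) _ ?_
    intro ω ω' hω hω' hW
    obtain ⟨hW0, hW3⟩ := Prod.ext_iff.mp hW
    obtain ⟨hW1, hW2⟩ := Prod.ext_iff.mp hW3
    simp only at hW0 hW1 hW2
    have k1 := hα ω hω
    rw [hW2, hW0] at k1
    have k2 := hα ω' hω'
    have k3 : |d2 (Z ω') * (((T1 ω - T1 ω' : ℤ) : ℝ) / M)| ≤ 2 * a := by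
      have e1 : d2 (Z ω') * (((T1 ω - T1 ω' : ℤ) : ℝ) / M) =
          ((d1 (Z ω') * ((x (Z ω') - T0 ω') / M) + d2 (Z ω') * ((x (Z ω') - T1 ω') / M)) -
            α (Z ω')) - ((d1 (Z ω') * ((x (Z ω') - T0 ω') / M) +
            d2 (Z ω') * ((x (Z ω') - T1 ω) / M)) - α (Z ω')) := by
        push_cast
        ring
      rw [e1]
      refine (abs_sub _ _).trans ?_
      linarith
    rw [abs_mul, abs_div, abs_of_pos hM0] at k3
    have k4 : m₀ * (|((T1 ω - T1 ω' : ℤ) : ℝ)| / M) ≤ 2 * a :=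
      (mul_le_mul_of_nonneg_right (hd2 ω' hω') (by positivity)).trans k3
    rw [le_div_iff₀ hm₀]
    rw [mul_div_assoc', div_le_iff₀ hM0] at k4
    linarith
  -- the sum
  have c4 : CH Q (fun ω => (T0 ω, T1 ω)) Z ≤ CH Q R Z +
      (CH Q T0 (fun ω => (R ω, Z ω)) + CH Q T1 (fun ω => (T0 ω, (R ω, Z ω)))) := by
    rw [← CH_chain2 q0 T0 T1 (fun ω => (R ω, Z ω))]
    exact CH_le_add q0 _ R Z
  have c5 : Ex Q (fun ω => Real.log (2 *
      (4 * M ^ 2 * (b / g₀ + 4 * a) / ((|(T0 ω : ℝ) - T1 ω| + 1) * m₀)) + 1)) ≤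
      Ex Q (fun ω => -(Real.log (|(T0 ω : ℝ) - T1 ω| + 1)) +
        (Real.log (12 * (b / g₀ + 4 * a)) + 2 * Real.log M - Real.log m₀)) := by
    refine Ex_mono q0 fun ω hω => ?_
    set y : ℝ := |(T0 ω : ℝ) - T1 ω| + 1 with hy
    have hy0 : 0 < y := by positivity
    have hyM : y ≤ 3 * M := by
      have h2 : |((T0 ω - T1 ω : ℤ) : ℝ)| ≤ 2 * M := by
        have h3 := abs_le.mp (h0 ω hω)
        have h4 := abs_le.mp (h1 ω hω)
        have h5 : |T0 ω - T1 ω| ≤ 2 * (M : ℤ) := by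
          rw [abs_le]
          constructor <;> linarith [h3.1, h3.2, h4.1, h4.2]
        rw [← Int.cast_abs]
        exact_mod_cast h5
      push_cast at h2
      rw [hy]
      linarith
    set J : ℝ := 4 * M ^ 2 * (b / g₀ + 4 * a) / (y * m₀) with hJ
    have hJ1 : 1 ≤ J := by
      rw [hJ, le_div_iff₀ (by positivity), one_mul]
      have h2 : y * m₀ ≤ 3 * M * M := mul_le_mul hyM hmM hm₀.le (by positivity)
      have h3 : 4 * (M : ℝ) ^ 2 * (4 * 1) ≤ 4 * M ^ 2 * (b / g₀ + 4 * a) :=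
        mul_le_mul_of_nonneg_left (by linarith) (by positivity)
      nlinarith
    have h2 : Real.log (2 * J + 1) ≤ Real.log (3 * J) := Real.log_le_log (by linarith) (by linarith)
    refine h2.trans (le_of_eq ?_)
    have h3 : 3 * J = (12 * (b / g₀ + 4 * a)) * M ^ 2 / (y * m₀) := by
      rw [hJ]
      ring
    have h4 : 0 < b / g₀ + 4 * a := by linarith
    rw [h3, Real.log_div (by positivity) (by positivity), Real.log_mul (by positivity)
      (by positivity), Real.log_mul hy0.ne' hm₀.ne', Real.log_pow]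
    push_cast
    ring
  have c6 : Ex Q (fun ω => -(Real.log (|(T0 ω : ℝ) - T1 ω| + 1)) +
      (Real.log (12 * (b / g₀ + 4 * a)) + 2 * Real.log M - Real.log m₀)) =
      -Ex Q (fun ω => Real.log (|(T0 ω : ℝ) - T1 ω| + 1)) +
      (Real.log (12 * (b / g₀ + 4 * a)) + 2 * Real.log M - Real.log m₀) := by
    rw [Ex_add, Ex_const hQ.sum_one]
    congr 1
    unfold Ex
    rw [← Finset.sum_neg_distrib]
    exact Finset.sum_congr rfl fun ω _ => by ring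
  have c7 : Ex Q (fun _ => Real.log (2 * (2 * a * M / m₀) + 1)) ≤
      Real.log (5 * a) + Real.log M - Real.log m₀ := by
    rw [Ex_const hQ.sum_one]
    have h2 : 1 ≤ a * M / m₀ := by
      rw [le_div_iff₀ hm₀, one_mul]
      exact hmM.trans (le_mul_of_one_le_left hM0.le ha)
    have h3 : Real.log (2 * (2 * a * M / m₀) + 1) ≤ Real.log (5 * a * M / m₀) := by
      refine Real.log_le_log (by positivity) ?_
      have e1 : 5 * a * M / m₀ = 5 * (a * M / m₀) := by ring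
      have e2 : 2 * (2 * a * M / m₀) = 4 * (a * M / m₀) := by ring
      rw [e1, e2]
      linarith
    refine h3.trans (le_of_eq ?_)
    rw [Real.log_div (by positivity) hm₀.ne', Real.log_mul (by positivity) (by positivity)]
  have c8 : Real.log (60 * a * (b / g₀ + 4 * a)) =
      Real.log (12 * (b / g₀ + 4 * a)) + Real.log (5 * a) := by
    have h4 : 0 < b / g₀ + 4 * a := by linarith
    rw [← Real.log_mul (by positivity) (by positivity)]
    congr 1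
    ring
  have c9 : Real.log (M : ℝ) ≤ Real.log (2 * M + 1) := Real.log_le_log hM0 (by linarith)
  rw [c6] at c5
  rw [c8]
  linarith

/-- **A hop of the pair `(v, N)`**: the line `l'` is a copy of `l` given the ball at the time `T`. -/
structure HopR {Λ : Type} (M K V : ℕ) (D : Λ → ℝ) (v N : Λ → ℤ → ℤ) (s : Λ → ℤ → ℝ) (l l' : Λ)
    (T : ℤ) : Prop where
  vel : ∀ τ : ℤ, |τ| ≤ (M : ℤ) → |((v l' τ : ℝ) - v l τ) - (D l' - D l) * (((τ : ℝ) - T) / M)| ≤ K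
  nel : ∀ τ : ℤ, |τ| ≤ (M : ℤ) →
    |((N l' τ : ℝ) - N l τ) - s l T * ((D l' - D l) * (((τ : ℝ) - T) / M))| ≤ K
  slp : ∀ τ : ℤ, |τ| ≤ (M : ℤ) → |s l' τ - s l τ| * V ≤ K
  big : |D l' - D l| ≤ V

/-- The error of `mc`. -/
noncomputable def er (M K A : ℕ) (m₀ g₀ : ℝ) : ℝ :=
  Real.log (60 * (2 * K) * (6 * K * A / g₀ + 4 * (2 * K))) + 2 * (Real.log M - Real.log m₀) +
    Real.log (2 * (1 + Real.log (2 * M + 1))) + Real.log (2 * ((Nat.log 2 (2 * M + 1) : ℝ) + 1))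

/-- Two hops. -/
theorem two_hops {Λ : Type} {M K V A : ℕ} (hM : 1 ≤ M) (hK : 1 ≤ K) (hA : 1 ≤ A) {D : Λ → ℝ}
    {v N : Λ → ℤ → ℤ} {s : Λ → ℤ → ℝ} {g : Λ → ℝ}
    (hs : ∀ l τ τ', s l τ - s l τ' = g l * (((τ : ℝ) - τ') / M)) {l1 l2 l3 : Λ} {T0 T1 τ : ℤ}
    (hsA : |s l1 τ| ≤ A) (hT1 : |T1| ≤ (M : ℤ)) (hτ : |τ| ≤ (M : ℤ))
    (h12 : HopR M K V D v N s l1 l2 T0) (h23 : HopR M K V D v N s l2 l3 T1) :
    |((D l2 - D l1) * (((τ : ℝ) - T0) / M) + (D l3 - D l2) * (((τ : ℝ) - T1) / M)) -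
      ((v l3 τ : ℝ) - v l1 τ)| ≤ 2 * K ∧
    |g l1 * ((D l2 - D l1) * (((τ : ℝ) - T0) / M) ^ 2 + (D l3 - D l2) * (((τ : ℝ) - T1) / M) ^ 2) -
      (s l1 τ * ((v l3 τ : ℝ) - v l1 τ) - ((N l3 τ : ℝ) - N l1 τ))| ≤ 6 * K * A := by
  have hMr : (1 : ℝ) ≤ M := by exact_mod_cast hM
  have hM0 : (0 : ℝ) < M := by linarith
  have hKr : (1 : ℝ) ≤ K := by exact_mod_cast hK
  have hAr : (1 : ℝ) ≤ A := by exact_mod_cast hA
  obtain ⟨d1, hd1⟩ : ∃ d, d = D l2 - D l1 := ⟨_, rfl⟩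
  obtain ⟨d2, hd2⟩ : ∃ d, d = D l3 - D l2 := ⟨_, rfl⟩
  obtain ⟨x0, hx0⟩ : ∃ d, d = ((τ : ℝ) - T0) / M := ⟨_, rfl⟩
  obtain ⟨x1, hx1⟩ : ∃ d, d = ((τ : ℝ) - T1) / M := ⟨_, rfl⟩
  have v1 := h12.vel τ hτ
  have v2 := h23.vel τ hτ
  have n1 := h12.nel τ hτ
  have n2 := h23.nel τ hτ
  have s1 := h12.slp T1 hT1
  have b2 := h23.big
  have g0 := hs l1 τ T0
  have g1 := hs l1 τ T1
  rw [← hd1, ← hx0] at v1 n1
  rw [← hd2, ← hx1] at v2 n2
  rw [← hd2] at b2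
  rw [← hx0] at g0
  rw [← hx1] at g1
  rw [← hd1, ← hd2, ← hx0, ← hx1]
  have hx1b : |x1| ≤ 2 := by
    have h2 : |(T1 : ℝ)| ≤ M := by
      rw [← Int.cast_abs]
      exact_mod_cast hT1
    have h3 : |(τ : ℝ)| ≤ M := by
      rw [← Int.cast_abs]
      exact_mod_cast hτ
    rw [hx1, abs_div, abs_of_pos hM0, div_le_iff₀ hM0]
    exact (abs_sub _ _).trans (by linarith)
  have c1 : |(d1 * x0 + d2 * x1) - ((v l3 τ : ℝ) - v l1 τ)| ≤ 2 * K := by
    rw [abs_le] at v1 v2 ⊢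
    constructor <;> linarith [v1.1, v1.2, v2.1, v2.2]
  refine ⟨c1, ?_⟩
  have c2 : |s l1 τ * ((d1 * x0 + d2 * x1) - ((v l3 τ : ℝ) - v l1 τ))| ≤ A * (2 * K) := by
    rw [abs_mul]
    exact mul_le_mul hsA c1 (abs_nonneg _) (by positivity)
  have c3 : |(s l2 T1 - s l1 T1) * (d2 * x1)| ≤ 2 * K := by
    rw [abs_mul, abs_mul]
    have h3 : |s l2 T1 - s l1 T1| * |d2| ≤ K :=
      (mul_le_mul_of_nonneg_left b2 (abs_nonneg _)).trans s1
    have h4 := mul_le_mul h3 hx1b (abs_nonneg _) (by positivity)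
    calc |s l2 T1 - s l1 T1| * (|d2| * |x1|) = |s l2 T1 - s l1 T1| * |d2| * |x1| := by ring
      _ ≤ K * 2 := h4
      _ = 2 * K := by ring
  have e1 : g l1 * (d1 * x0 ^ 2 + d2 * x1 ^ 2) -
      (s l1 τ * ((v l3 τ : ℝ) - v l1 τ) - ((N l3 τ : ℝ) - N l1 τ)) =
      s l1 τ * ((d1 * x0 + d2 * x1) - ((v l3 τ : ℝ) - v l1 τ)) +
        (((N l2 τ : ℝ) - N l1 τ) - s l1 T0 * (d1 * x0)) +
        (((N l3 τ : ℝ) - N l2 τ) - s l2 T1 * (d2 * x1)) + (s l2 T1 - s l1 T1) * (d2 * x1) := by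
    have e2 : g l1 * (d1 * x0 ^ 2 + d2 * x1 ^ 2) =
        (g l1 * x0) * (d1 * x0) + (g l1 * x1) * (d2 * x1) := by ring
    rw [e2, ← g0, ← g1]
    ring
  rw [e1]
  have h5 : (K : ℝ) ≤ K * A := le_mul_of_one_le_right (by positivity) hAr
  have a1 := abs_add_le (s l1 τ * ((d1 * x0 + d2 * x1) - ((v l3 τ : ℝ) - v l1 τ)) +
        (((N l2 τ : ℝ) - N l1 τ) - s l1 T0 * (d1 * x0)) +
        (((N l3 τ : ℝ) - N l2 τ) - s l2 T1 * (d2 * x1))) ((s l2 T1 - s l1 T1) * (d2 * x1))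
  have a2 := abs_add_le (s l1 τ * ((d1 * x0 + d2 * x1) - ((v l3 τ : ℝ) - v l1 τ)) +
        (((N l2 τ : ℝ) - N l1 τ) - s l1 T0 * (d1 * x0)))
        (((N l3 τ : ℝ) - N l2 τ) - s l2 T1 * (d2 * x1))
  have a3 := abs_add_le (s l1 τ * ((d1 * x0 + d2 * x1) - ((v l3 τ : ℝ) - v l1 τ)))
        (((N l2 τ : ℝ) - N l1 τ) - s l1 T0 * (d1 * x0))
  linarith

/-- **The moving slope: the core.** -/
theorem mc_core {Ω Λ : Type} [Fintype Ω] {Q : Ω → ℝ} (hQ : IsLaw Q) {M K V A : ℕ} (hM : 1 ≤ M)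
    (hK : 1 ≤ K) (hA : 1 ≤ A) (L1 L2 L3 : Ω → Λ) (T0 T1 t : Ω → ℤ) (D : Λ → ℝ)
    (v N : Λ → ℤ → ℤ) (s : Λ → ℤ → ℝ) (g : Λ → ℝ) {m₀ g₀ e : ℝ} (hm₀ : 0 < m₀) (hmM : m₀ ≤ M)
    (hg₀ : 0 < g₀) (hs : ∀ l τ τ', s l τ - s l τ' = g l * (((τ : ℝ) - τ') / M))
    (hsA : ∀ ω, 0 < Q ω → |s (L1 ω) (t ω)| ≤ A)
    (h0 : ∀ ω, 0 < Q ω → |T0 ω| ≤ (M : ℤ)) (h1 : ∀ ω, 0 < Q ω → |T1 ω| ≤ (M : ℤ))
    (ht : ∀ ω, 0 < Q ω → |t ω| ≤ (M : ℤ))
    (h12 : ∀ ω, 0 < Q ω → HopR M K V D v N s (L1 ω) (L2 ω) (T0 ω))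
    (h23 : ∀ ω, 0 < Q ω → HopR M K V D v N s (L2 ω) (L3 ω) (T1 ω))
    (hd1 : ∀ ω, 0 < Q ω → m₀ ≤ |D (L2 ω) - D (L1 ω)|)
    (hd2 : ∀ ω, 0 < Q ω → m₀ ≤ |D (L3 ω) - D (L2 ω)|)
    (hg : ∀ ω, 0 < Q ω → g₀ ≤ |g (L1 ω)|)
    (hf : 2 * Real.log (2 * M + 1) - e ≤
      CH Q (fun ω => (T0 ω, T1 ω)) (fun ω => (t ω, (D (L3 ω), (D (L2 ω), L1 ω))))) :
    2 * Real.log (2 * M + 1) - 2 * e - Real.log (8 * V + 4 * K + 1) - er M K A m₀ g₀ ≤
      CH Q (fun ω => N (L3 ω) (t ω)) (fun ω => (v (L3 ω) (t ω), (t ω, L1 ω))) := by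
  have q0 := hQ.nonneg
  set Z : Ω → ℤ × ℝ × ℝ × Λ := fun ω => (t ω, (D (L3 ω), (D (L2 ω), L1 ω))) with hZ
  set X : Ω → ℤ × ℤ := fun ω => (v (L3 ω) (t ω), N (L3 ω) (t ω)) with hX
  have hM' : Real.log (2 * M + 1) - e ≤ CH Q T1 T0 := by
    have c1 := CH_chain2 q0 T0 T1 Z
    have c2 := CH_le_box hQ T0 Z h0
    have c3 : CH Q T1 (fun ω => (T0 ω, Z ω)) ≤ CH Q T1 T0 :=
      CH_mono_cond q0 fun ω ω' _ _ hz => (Prod.ext_iff.mp hz).1
    linarith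
  have hK0 : (1 : ℝ) ≤ 2 * K := by
    have : (1 : ℝ) ≤ K := by exact_mod_cast hK
    linarith
  have key := two_times hQ hM T0 T1 (fun ω => (X ω, Z ω))
    (fun z => (z.2.1 : ℝ)) (fun z => z.2.2.2.1 - D z.2.2.2.2) (fun z => z.2.2.1 - z.2.2.2.1)
    (fun z => g z.2.2.2.2) (fun z => (z.1.1 : ℝ) - v z.2.2.2.2 z.2.1)
    (fun z => s z.2.2.2.2 z.2.1 * ((z.1.1 : ℝ) - v z.2.2.2.2 z.2.1) -
      ((z.1.2 : ℝ) - N z.2.2.2.2 z.2.1)) (m₀ := m₀) (g₀ := g₀) (a := 2 * K) (b := 6 * K * A)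
    (e := e) hm₀ hmM hg₀ hK0 (by positivity) h0 h1
    (by
      intro ω hω
      show |((t ω : ℤ) : ℝ)| ≤ M
      rw [← Int.cast_abs]
      exact_mod_cast ht ω hω)
    (fun ω hω => hd1 ω hω) (fun ω hω => hd2 ω hω) (fun ω hω => hg ω hω)
    (fun ω hω => (two_hops hM hK hA hs (hsA ω hω) (h1 ω hω) (ht ω hω) (h12 ω hω) (h23 ω hω)).1)
    (fun ω hω => (two_hops hM hK hA hs (hsA ω hω) (h1 ω hω) (ht ω hω) (h12 ω hω) (h23 ω hω)).2) hM'
  have c1 : CH Q (fun ω => (T0 ω, T1 ω)) Z ≤ CH Q X Z +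
      CH Q (fun ω => (T0 ω, T1 ω)) (fun ω => (X ω, Z ω)) := CH_le_add q0 _ X Z
  have c2 : CH Q X Z ≤ CH Q X (fun ω => (t ω, L1 ω)) :=
    CH_mono_cond q0 fun ω ω' _ _ hz => by
      have h2 := Prod.ext_iff.mp hz
      have h3 := Prod.ext_iff.mp h2.2
      have h4 := Prod.ext_iff.mp h3.2
      exact Prod.ext h2.1 h4.2
  have c3 : CH Q X (fun ω => (t ω, L1 ω)) = CH Q (fun ω => v (L3 ω) (t ω)) (fun ω => (t ω, L1 ω)) +
      CH Q (fun ω => N (L3 ω) (t ω)) (fun ω => (v (L3 ω) (t ω), (t ω, L1 ω))) :=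
    CH_chain2 q0 (fun ω => v (L3 ω) (t ω)) (fun ω => N (L3 ω) (t ω)) (fun ω => (t ω, L1 ω))
  have c4 : CH Q (fun ω => v (L3 ω) (t ω)) (fun ω => (t ω, L1 ω)) ≤
      Real.log (8 * V + 4 * K + 1) := by
    have h := CH_fn q0 hQ.sum_one (fun ω => v (L3 ω) (t ω)) (fun ω => (t ω, L1 ω))
      (fun z => v z.2 z.1) (4 * V + 2 * K) (by
        intro ω hω
        have h2 := (two_hops hM hK hA hs (hsA ω hω) (h1 ω hω) (ht ω hω) (h12 ω hω) (h23 ω hω)).1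
        have hM0 : (0 : ℝ) < M := by exact_mod_cast (by omega : 0 < M)
        have tb : |(t ω : ℝ)| ≤ M := by
          rw [← Int.cast_abs]
          exact_mod_cast ht ω hω
        have xb : ∀ {T : ℤ}, |T| ≤ (M : ℤ) → |((t ω : ℝ) - T) / M| ≤ 2 := by
          intro T hT
          have h2 : |(T : ℝ)| ≤ M := by
            rw [← Int.cast_abs]
            exact_mod_cast hT
          rw [abs_div, abs_of_pos hM0, div_le_iff₀ hM0]
          exact (abs_sub _ _).trans (by linarith)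
        have p1 : |(D (L2 ω) - D (L1 ω)) * (((t ω : ℝ) - T0 ω) / M)| ≤ V * 2 := by
          rw [abs_mul]
          exact mul_le_mul (h12 ω hω).big (xb (h0 ω hω)) (abs_nonneg _) (by positivity)
        have p2 : |(D (L3 ω) - D (L2 ω)) * (((t ω : ℝ) - T1 ω) / M)| ≤ V * 2 := by
          rw [abs_mul]
          exact mul_le_mul (h23 ω hω).big (xb (h1 ω hω)) (abs_nonneg _) (by positivity)
        have p3 : ((|v (L3 ω) (t ω) - v (L1 ω) (t ω)| : ℤ) : ℝ) ≤ ((4 * V + 2 * K : ℕ) : ℝ) := by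
          rw [Int.cast_abs]
          push_cast
          rw [abs_le] at h2 p1 p2 ⊢
          constructor <;> linarith [h2.1, h2.2, p1.1, p1.2, p2.1, p2.2]
        exact_mod_cast p3)
    refine h.trans (le_of_eq ?_)
    congr 1
    push_cast
    ring
  have c5 : er M K A m₀ g₀ = Real.log (60 * (2 * K) * (6 * K * A / g₀ + 4 * (2 * K))) +
      2 * (Real.log M - Real.log m₀) + Real.log (2 * (1 + Real.log (2 * M + 1))) +
      Real.log (2 * ((Nat.log 2 (2 * M + 1) : ℝ) + 1)) := rfl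
  linarith

end Pool.SLW13
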