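import Pool.Agent.H13.SLW.Mc

/-!
# The moving slope: the law of the chain

`l₁ - l₂ - l₃`: `l₂` is the copy of `l₁` given the ball at the time `T₀`, `T₁` is a new time of `l₂`,
`l₃` is the copy of `l₂` given the ball at `T₁`, `t` is a new time of `l₃`. If the velocity `D` has the
same entropy given the ball and given the context (LA), and the time is full given the line, the pair
`(T₀, T₁)` is full given `l₁`, the velocities and `t`.
-/

set_option autoImplicit false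

namespace Pool.SLW13

open Finset Real
open Pool.Agent.H49.Ent Pool.Agent.H32.Dense Pool.STK Pool.OWN68 Pool.VH64

/-- The chain rule in two orders. -/
theorem CH_two {Ω S T U : Type} [Fintype Ω] {p : Ω → ℝ} (h0 : ∀ ω, 0 ≤ p ω) (A : Ω → S) (B : Ω → T)
    (Z : Ω → U) : CH p A (fun ω => (B ω, Z ω)) =
      CH p A Z + CH p B (fun ω => (A ω, Z ω)) - CH p B Z := by
  have h1 := CH_chain h0 A B Z
  have h2 := CH_chain2 h0 A B Z
  linarith

section glues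

variable {Ω₁ Ω₂ T S U : Type} [Fintype Ω₁] [Fintype Ω₂] {p₁ : Ω₁ → ℝ} {p₂ : Ω₂ → ℝ} {Z₁ : Ω₁ → T}
  {Z₂ : Ω₂ → T}

theorem CH_gfst (h₁ : ∀ ω, 0 ≤ p₁ ω) (hZ : ∀ z, law p₁ Z₁ z = law p₂ Z₂ z) (X : Ω₁ → S)
    (Y : Ω₁ → U) : CH (glue p₁ p₂ Z₁ Z₂) (fun w => X w.1) (fun w => Y w.1) = CH p₁ X Y := by
  unfold CH
  rw [H_glue_fst h₁ hZ (fun w => (X w, Y w)), H_glue_fst h₁ hZ Y]

theorem CH_gsnd (h₂ : ∀ ω, 0 ≤ p₂ ω) (hZ : ∀ z, law p₁ Z₁ z = law p₂ Z₂ z) (X : Ω₂ → S)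
    (Y : Ω₂ → U) : CH (glue p₁ p₂ Z₁ Z₂) (fun w => X w.2) (fun w => Y w.2) = CH p₂ X Y := by
  unfold CH
  rw [H_glue_snd h₂ hZ (fun w => (X w, Y w)), H_glue_snd h₂ hZ Y]

/-- A new sample given `Z₂`: everything about the first factor is free. -/
theorem CH_new (h₁ : ∀ ω, 0 ≤ p₁ ω) (h₂ : ∀ ω, 0 ≤ p₂ ω) (hZ : ∀ z, law p₁ Z₁ z = law p₂ Z₂ z)
    (X : Ω₂ → S) : CH p₂ X Z₂ ≤ CH (glue p₁ p₂ Z₁ Z₂) (fun w => X w.2) (fun w => w.1) := by
  have h := CH_glue_snd h₁ h₂ hZ X (Y := Z₂) (fun w : Ω₁ => w) (fun _ _ _ _ h => h)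
  rw [← h]
  exact CH_mono_cond (glue_nonneg h₁ h₂) fun w w' _ _ hz => (Prod.ext_iff.mp hz).2

end glues

/-- The chain: `((ω₁, ω₂), ω₂')`, the copy `ω₃`, the new time `ω₄`. -/
noncomputable def ch2 {Ω Λ Γ : Type} [Fintype Ω] (p : Ω → ℝ) (L : Ω → Λ) (G : Ω → Γ) :
    (Ω × Ω) × Ω → ℝ := glue (glue p p G G) p (fun w => L w.2) L

noncomputable def ch3 {Ω Λ Γ : Type} [Fintype Ω] (p : Ω → ℝ) (L : Ω → Λ) (G : Ω → Γ) :
    ((Ω × Ω) × Ω) × Ω → ℝ := glue (ch2 p L G) p (fun w => G w.2) G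

noncomputable def ch4 {Ω Λ Γ : Type} [Fintype Ω] (p : Ω → ℝ) (L : Ω → Λ) (G : Ω → Γ) :
    (((Ω × Ω) × Ω) × Ω) × Ω → ℝ := glue (ch3 p L G) p (fun w => L w.2) L

section chain

variable {Ω Λ Γ : Type} [Fintype Ω] {p : Ω → ℝ} (hp : IsLaw p) (L : Ω → Λ) (G : Ω → Γ)
include hp

theorem ch1_law : IsLaw (glue p p G G) :=
  ⟨glue_nonneg hp.nonneg hp.nonneg, by rw [sum_glue hp.nonneg (fun _ => rfl), hp.sum_one]⟩

theorem ch2_Z (z : Λ) : law (glue p p G G) (fun w => L w.2) z = law p L z :=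
  law_glue_snd hp.nonneg (fun _ => rfl) L z

theorem ch2_law : IsLaw (ch2 p L G) :=
  ⟨glue_nonneg (ch1_law hp G).nonneg hp.nonneg, by
    unfold ch2
    rw [sum_glue (ch1_law hp G).nonneg (ch2_Z hp L G), (ch1_law hp G).sum_one]⟩

theorem ch3_Z (z : Γ) : law (ch2 p L G) (fun w => G w.2) z = law p G z :=
  law_glue_snd hp.nonneg (ch2_Z hp L G) G z

theorem ch3_law : IsLaw (ch3 p L G) :=
  ⟨glue_nonneg (ch2_law hp L G).nonneg hp.nonneg, by
    unfold ch3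
    rw [sum_glue (ch2_law hp L G).nonneg (ch3_Z hp L G), (ch2_law hp L G).sum_one]⟩

theorem ch4_Z (z : Λ) : law (ch3 p L G) (fun w => L w.2) z = law p L z :=
  law_glue_snd hp.nonneg (ch3_Z hp L G) L z

theorem ch4_law : IsLaw (ch4 p L G) :=
  ⟨glue_nonneg (ch3_law hp L G).nonneg hp.nonneg, by
    unfold ch4
    rw [sum_glue (ch3_law hp L G).nonneg (ch4_Z hp L G), (ch3_law hp L G).sum_one]⟩

theorem ch3_pos {u : ((Ω × Ω) × Ω) × Ω} (hu : 0 < ch3 p L G u) :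
    0 < p u.1.1.1 ∧ 0 < p u.1.1.2 ∧ 0 < p u.1.2 ∧ 0 < p u.2 ∧ G u.1.1.1 = G u.1.1.2 ∧
      L u.1.1.2 = L u.1.2 ∧ G u.1.2 = G u.2 := by
  obtain ⟨h1, h2, h3⟩ := (glue_pos_iff (ch2_law hp L G).nonneg hp.nonneg u).mp hu
  obtain ⟨h4, h5, h6⟩ := (glue_pos_iff (ch1_law hp G).nonneg hp.nonneg u.1).mp h1
  obtain ⟨h7, h8, h9⟩ := (glue_pos_iff hp.nonneg hp.nonneg u.1.1).mp h4
  exact ⟨h7, h8, h5, h2, h9, h6, h3⟩

theorem ch4_pos {u : (((Ω × Ω) × Ω) × Ω) × Ω} (hu : 0 < ch4 p L G u) :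
    0 < ch3 p L G u.1 ∧ 0 < p u.2 ∧ L u.1.2 = L u.2 :=
  (glue_pos_iff (ch3_law hp L G).nonneg hp.nonneg u).mp hu

/-- **The times of the chain are full.** -/
theorem ch4_full {𝒞 : Type} {M : ℕ} (t : Ω → ℤ) (C : Λ → 𝒞) (D : Λ → ℝ) {e e' : ℝ}
    (ht : ∀ ω, 0 < p ω → |t ω| ≤ (M : ℤ))
    (hC : ∀ ω ω', 0 < p ω → 0 < p ω' → G ω = G ω' → C (L ω) = C (L ω'))
    (hfull : Real.log (2 * M + 1) - e ≤ CH p t L)
    (hLA : CH p (fun ω => D (L ω)) (fun ω => C (L ω)) ≤ CH p (fun ω => D (L ω)) G + e') :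
    2 * Real.log (2 * M + 1) - (3 * e + 3 * e') ≤
      CH (ch4 p L G) (fun u => (t u.1.1.1.1, t u.1.1.2))
        (fun u => (t u.2, (D (L u.1.2), (D (L u.1.1.1.2), L u.1.1.1.1)))) := by
  have p0 := hp.nonneg
  have l1 := ch1_law hp G
  have l2 := ch2_law hp L G
  have l3 := ch3_law hp L G
  have l4 := ch4_law hp L G
  set P1 := glue p p G G with hP1
  -- the first time
  have a1 : Real.log (2 * M + 1) - e - e' ≤
      CH P1 (fun w => t w.1) (fun w => (D (L w.2), L w.1)) := by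
    rw [CH_two l1.nonneg (fun w => t w.1) (fun w => D (L w.2)) (fun w => L w.1)]
    have b1 : CH P1 (fun w => t w.1) (fun w => L w.1) = CH p t L := CH_gfst p0 (fun _ => rfl) t L
    have b2 : CH p (fun ω => D (L ω)) G ≤ CH P1 (fun w => D (L w.2)) (fun w => (t w.1, L w.1)) :=
      (CH_new p0 p0 (fun _ => rfl) (fun ω => D (L ω))).trans
        (CH_mono_cond l1.nonneg fun w w' _ _ hz => by
          show (t w.1, L w.1) = (t w'.1, L w'.1)
          rw [show w.1 = w'.1 from hz])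
    have b3 : CH P1 (fun w => D (L w.2)) (fun w => L w.1) ≤
        CH p (fun ω => D (L ω)) (fun ω => C (L ω)) := by
      rw [← CH_gsnd (p₁ := p) (Z₁ := G) (Z₂ := G) p0 (fun _ => rfl) (fun ω => D (L ω))
        (fun ω => C (L ω))]
      refine CH_mono_cond l1.nonneg fun w w' hw hw' hz => ?_
      obtain ⟨c1, c2, c3⟩ := (glue_pos_iff p0 p0 w).mp hw
      obtain ⟨d1, d2, d3⟩ := (glue_pos_iff p0 p0 w').mp hw'
      show C (L w.2) = C (L w'.2)
      rw [← hC _ _ c1 c2 c3, ← hC _ _ d1 d2 d3]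
      exact congrArg C hz
    linarith
  -- the law of the last velocity
  have dlow : ∀ {U : Type} (W : (Ω × Ω) × Ω → U),
      CH p (fun ω => D (L ω)) G ≤ CH (ch3 p L G) (fun u => D (L u.2)) (fun u => W u.1) := by
    intro U W
    refine (CH_new (p₁ := ch2 p L G) (Z₁ := fun w => G w.2) (Z₂ := G) l2.nonneg p0 (ch3_Z hp L G)
      (fun ω => D (L ω))).trans ?_
    refine CH_mono_cond l3.nonneg fun w w' _ _ hz => ?_
    show W w.1 = W w'.1
    rw [show w.1 = w'.1 from hz]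
  have dup : ∀ {U : Type} (W : ((Ω × Ω) × Ω) × Ω → U),
      (∀ u u', W u = W u' → L u.1.1.1 = L u'.1.1.1 ∨ L u.1.1.2 = L u'.1.1.2) →
      CH (ch3 p L G) (fun u => D (L u.2)) W ≤ CH p (fun ω => D (L ω)) (fun ω => C (L ω)) := by
    intro U W hW
    rw [← CH_gsnd (p₁ := ch2 p L G) (Z₁ := fun w => G w.2) (Z₂ := G) p0 (ch3_Z hp L G)
      (fun ω => D (L ω)) (fun ω => C (L ω))]
    refine CH_mono_cond l3.nonneg fun u u' hu hu' hz => ?_
    obtain ⟨c1, c2, c3, c4, c5, c6, c7⟩ := ch3_pos hp L G hu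
    obtain ⟨d1, d2, d3, d4, d5, d6, d7⟩ := ch3_pos hp L G hu'
    show C (L u.2) = C (L u'.2)
    have e1 : C (L u.1.1.1) = C (L u.1.1.2) := hC _ _ c1 c2 c5
    have e2 : C (L u.1.2) = C (L u.2) := hC _ _ c3 c4 c7
    have e3 : C (L u'.1.1.1) = C (L u'.1.1.2) := hC _ _ d1 d2 d5
    have e4 : C (L u'.1.2) = C (L u'.2) := hC _ _ d3 d4 d7
    rw [← e2, ← c6, ← e4, ← d6]
    rcases hW u u' hz with h | h
    · rw [← e1, ← e3, h]
    · rw [h]
  -- the first time given all velocities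
  have a2 : Real.log (2 * M + 1) - e - 2 * e' ≤ CH (ch3 p L G) (fun u => t u.1.1.1)
      (fun u => (D (L u.2), (D (L u.1.1.2), L u.1.1.1))) := by
    rw [CH_two l3.nonneg (fun u => t u.1.1.1) (fun u => D (L u.2))
      (fun u => (D (L u.1.1.2), L u.1.1.1))]
    have b1 : CH (ch3 p L G) (fun u => t u.1.1.1) (fun u => (D (L u.1.1.2), L u.1.1.1)) =
        CH P1 (fun w => t w.1) (fun w => (D (L w.2), L w.1)) := by
      rw [← CH_gfst (p₁ := P1) (p₂ := p) (Z₁ := fun w => L w.2) (Z₂ := L) l1.nonneg (ch2_Z hp L G)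
        (fun w => t w.1) (fun w => (D (L w.2), L w.1))]
      exact CH_gfst (p₁ := ch2 p L G) (p₂ := p) (Z₁ := fun w => G w.2) (Z₂ := G) l2.nonneg
        (ch3_Z hp L G) (fun w => t w.1.1) (fun w => (D (L w.1.2), L w.1.1))
    have b2 := dlow (fun w => (t w.1.1, (D (L w.1.2), L w.1.1)))
    have b3 := dup (fun u => (D (L u.1.1.2), L u.1.1.1)) (fun u u' h => Or.inl (Prod.ext_iff.mp h).2)
    linarith
  -- the second time
  have a3 : Real.log (2 * M + 1) - e - e' ≤ CH (ch3 p L G) (fun u => t u.1.2)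
      (fun u => (t u.1.1.1, (D (L u.2), (D (L u.1.1.2), L u.1.1.1)))) := by
    have b0 : CH (ch3 p L G) (fun u => t u.1.2) (fun u => (D (L u.2), u.1.1)) ≤
        CH (ch3 p L G) (fun u => t u.1.2)
          (fun u => (t u.1.1.1, (D (L u.2), (D (L u.1.1.2), L u.1.1.1)))) := by
      refine CH_mono_cond l3.nonneg fun u u' _ _ hz => ?_
      obtain ⟨h1, h2⟩ := Prod.ext_iff.mp hz
      have h1' : D (L u.2) = D (L u'.2) := h1
      have h2' : u.1.1 = u'.1.1 := h2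
      show (t u.1.1.1, (D (L u.2), (D (L u.1.1.2), L u.1.1.1))) =
        (t u'.1.1.1, (D (L u'.2), (D (L u'.1.1.2), L u'.1.1.1)))
      rw [h1', h2']
    refine le_trans ?_ b0
    rw [CH_two l3.nonneg (fun u => t u.1.2) (fun u => D (L u.2)) (fun u => u.1.1)]
    have b1 : CH p t L ≤ CH (ch3 p L G) (fun u => t u.1.2) (fun u => u.1.1) := by
      have c1 : CH (ch3 p L G) (fun u => t u.1.2) (fun u => u.1.1) =
          CH (ch2 p L G) (fun w => t w.2) (fun w => w.1) :=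
        CH_gfst (p₁ := ch2 p L G) (p₂ := p) (Z₁ := fun w => G w.2) (Z₂ := G) l2.nonneg
          (ch3_Z hp L G) (fun w => t w.2) (fun w => w.1)
      rw [c1]
      exact CH_new (p₁ := P1) (Z₁ := fun w => L w.2) (Z₂ := L) l1.nonneg p0 (ch2_Z hp L G) t
    have b2 := dlow (fun w => (t w.2, w.1))
    have b3 := dup (fun u => u.1.1) (fun u u' h => Or.inl (by
      have h' : u.1.1 = u'.1.1 := h
      rw [h']))
    linarith
  -- both times
  have a4 : 2 * Real.log (2 * M + 1) - (2 * e + 3 * e') ≤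
      CH (ch3 p L G) (fun u => (t u.1.1.1, t u.1.2))
        (fun u => (D (L u.2), (D (L u.1.1.2), L u.1.1.1))) := by
    rw [CH_chain2 l3.nonneg (fun u => t u.1.1.1) (fun u => t u.1.2)
      (fun u => (D (L u.2), (D (L u.1.1.2), L u.1.1.1)))]
    linarith
  -- the new time
  rw [CH_two l4.nonneg (fun u => (t u.1.1.1.1, t u.1.1.2)) (fun u => t u.2)
    (fun u => (D (L u.1.2), (D (L u.1.1.1.2), L u.1.1.1.1)))]
  have b1 : CH (ch4 p L G) (fun u => (t u.1.1.1.1, t u.1.1.2))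
      (fun u => (D (L u.1.2), (D (L u.1.1.1.2), L u.1.1.1.1))) =
      CH (ch3 p L G) (fun u => (t u.1.1.1, t u.1.2))
        (fun u => (D (L u.2), (D (L u.1.1.2), L u.1.1.1))) :=
    CH_gfst (p₁ := ch3 p L G) (p₂ := p) (Z₁ := fun w => L w.2) (Z₂ := L) l3.nonneg (ch4_Z hp L G)
      (fun u => (t u.1.1.1, t u.1.2)) (fun u => (D (L u.2), (D (L u.1.1.2), L u.1.1.1)))
  have b2 : CH p t L ≤ CH (ch4 p L G) (fun u => t u.2) (fun u => ((t u.1.1.1.1, t u.1.1.2),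
      (D (L u.1.2), (D (L u.1.1.1.2), L u.1.1.1.1)))) := by
    refine (CH_new (p₁ := ch3 p L G) (Z₁ := fun w => L w.2) (Z₂ := L) l3.nonneg p0 (ch4_Z hp L G)
      t).trans ?_
    refine CH_mono_cond l4.nonneg fun u u' _ _ hz => ?_
    have h' : u.1 = u'.1 := hz
    show ((t u.1.1.1.1, t u.1.1.2), (D (L u.1.2), (D (L u.1.1.1.2), L u.1.1.1.1))) =
      ((t u'.1.1.1.1, t u'.1.1.2), (D (L u'.1.2), (D (L u'.1.1.1.2), L u'.1.1.1.1)))
    rw [h']
  have b3 : CH (ch4 p L G) (fun u => t u.2) (fun u => (D (L u.1.2), (D (L u.1.1.1.2),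
      L u.1.1.1.1))) ≤ Real.log (2 * M + 1) := CH_le_box l4 _ _ fun u hu => ht _ (ch4_pos hp L G hu).2.1
  linarith

end chain

/-- The marginal of a conditioned law. -/
theorem marg_cond {Ω' Ω : Type} [Fintype Ω'] [Fintype Ω] {P : Ω' → ℝ} (hP : IsLaw P)
    (pr : Ω' → Ω) {p : Ω → ℝ} (hpr : ∀ ω, law P pr ω = p ω) (E : Ω' → Prop) {R : ℝ} (hR : 0 < R)
    (hE : 1 / R ≤ law P E True) :
    IsLaw (fun ω => law (Pool.Agent.H49.Ent.cond P E True) pr ω) ∧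
      (∀ ω, law (Pool.Agent.H49.Ent.cond P E True) pr ω ≤ R * p ω) ∧
      ∀ {S T : Type} (X : Ω → S) (Y : Ω → T),
        CH (Pool.Agent.H49.Ent.cond P E True) (fun w => X (pr w)) (fun w => Y (pr w)) =
          CH (fun ω => law (Pool.Agent.H49.Ent.cond P E True) pr ω) X Y := by
  classical
  have hR' : 0 < 1 / R := by positivity
  have hE0 : 0 < law P E True := hR'.trans_le hE
  set Q := Pool.Agent.H49.Ent.cond P E True with hQ
  have hQlaw : IsLaw Q := ⟨cond_nonneg hP.nonneg E True, sum_cond P E hE0.ne'⟩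
  refine ⟨⟨fun ω => law_nonneg hQlaw.nonneg _ _, ?_⟩, fun ω => ?_, ?_⟩
  · have h4 : ∑ ω, law Q pr ω = ∑ u, Q u := by
      unfold law
      rw [Finset.sum_comm]
      refine Finset.sum_congr rfl fun u _ => ?_
      rw [Finset.sum_ite_eq]
      simp
    rw [h4, hQlaw.sum_one]
  · rw [← hpr ω]
    unfold law
    rw [Finset.mul_sum]
    refine Finset.sum_le_sum fun u _ => ?_
    by_cases hu : pr u = ω
    · rw [if_pos hu, if_pos hu, hQ]
      unfold Pool.Agent.H49.Ent.cond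
      split_ifs
      · rw [div_le_iff₀ hE0]
        have h5 : 1 ≤ R * law P E True := by
          have := mul_le_mul_of_nonneg_left hE hR.le
          rwa [mul_one_div_cancel hR.ne'] at this
        nlinarith [hP.nonneg u]
      · exact mul_nonneg hR.le (hP.nonneg u)
    · rw [if_neg hu, if_neg hu, mul_zero]
  · intro S T X Y
    unfold CH
    rw [← H_eq_of_marginal (q := Q) (p := fun ω => law Q pr ω) pr (fun ω => rfl)
        (fun ω => (X ω, Y ω)),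
      ← H_eq_of_marginal (q := Q) (p := fun ω => law Q pr ω) pr (fun ω => rfl) Y]

open Classical in
/-- **The moving slope (Lemma MC).** The pair `(v, N)` of the copies of a line given the ball `G`
moves in the direction `(1, s(T))`, and the slope `s` is affine in the time, `s' = g`. The velocity
`D` of `v` has the same entropy given the ball and given the context `C`, and the time is full given
the line. If `|g| ≥ g₀` and the velocities of the two hops differ by at least `m₀`, on an event of mass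
at least `1 / R`, then for some law `q ≤ R p` the coordinate `N` is full given `v`, the time and `C`. -/
theorem mc {Ω Λ Γ 𝒞 : Type} [Fintype Ω] {p : Ω → ℝ} (hp : IsLaw p) {M K V A : ℕ} (hM : 1 ≤ M)
    (hK : 1 ≤ K) (hA : 1 ≤ A) (L : Ω → Λ) (t : Ω → ℤ) (G : Ω → Γ) (C : Λ → 𝒞) (D : Λ → ℝ)
    (v N : Λ → ℤ → ℤ) (s : Λ → ℤ → ℝ) (g : Λ → ℝ) {m₀ g₀ R e e' : ℝ} (hm₀ : 0 < m₀) (hmM : m₀ ≤ M)
    (hg₀ : 0 < g₀) (hR : 0 < R) (he : 0 ≤ e) (he' : 0 ≤ e')
    (hs : ∀ l τ τ', s l τ - s l τ' = g l * (((τ : ℝ) - τ') / M))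
    (hsA : ∀ ω, 0 < p ω → ∀ τ : ℤ, |τ| ≤ (M : ℤ) → |s (L ω) τ| ≤ A)
    (ht : ∀ ω, 0 < p ω → |t ω| ≤ (M : ℤ))
    (hC : ∀ ω ω', 0 < p ω → 0 < p ω' → G ω = G ω' → C (L ω) = C (L ω'))
    (hG : ∀ ω ω', 0 < p ω → 0 < p ω' → G ω = G ω' → HopR M K V D v N s (L ω) (L ω') (t ω))
    (hfull : Real.log (2 * M + 1) - e ≤ CH p t L)
    (hLA : CH p (fun ω => D (L ω)) (fun ω => C (L ω)) ≤ CH p (fun ω => D (L ω)) G + e')
    (hbig : 1 / R ≤ ∑ u, (if m₀ ≤ |D (L u.1.1.2) - D (L u.1.1.1)| ∧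
      m₀ ≤ |D (L u.2) - D (L u.1.2)| ∧ g₀ ≤ |g (L u.1.1.1)| then ch3 p L G u else 0)) :
    ∃ q : Ω → ℝ, IsLaw q ∧ (∀ ω, q ω ≤ R * p ω) ∧
      2 * Real.log (2 * M + 1) - 2 * (R * (3 * e + 3 * e' + Real.log 2)) -
        Real.log (8 * V + 4 * K + 1) - er M K A m₀ g₀ ≤
      CH q (fun ω => N (L ω) (t ω)) (fun ω => (v (L ω) (t ω), (t ω, C (L ω)))) := by
  have p0 := hp.nonneg
  have l3 := ch3_law hp L G
  have l4 := ch4_law hp L G
  have hR' : 0 < 1 / R := by positivity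
  set E3 : ((Ω × Ω) × Ω) × Ω → Prop := fun u => m₀ ≤ |D (L u.1.1.2) - D (L u.1.1.1)| ∧
      m₀ ≤ |D (L u.2) - D (L u.1.2)| ∧ g₀ ≤ |g (L u.1.1.1)| with hE3
  have el : ∑ u, (if m₀ ≤ |D (L u.1.1.2) - D (L u.1.1.1)| ∧
      m₀ ≤ |D (L u.2) - D (L u.1.2)| ∧ g₀ ≤ |g (L u.1.1.1)| then ch3 p L G u else 0) =
      law (ch3 p L G) E3 True := by
    unfold law
    refine Finset.sum_congr rfl fun u _ => ?_
    simp only [hE3, eq_iff_iff, iff_true]
  rw [el] at hbig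
  set E : (((Ω × Ω) × Ω) × Ω) × Ω → Prop := fun u => E3 u.1 with hE
  have hEl : law (ch4 p L G) E True = law (ch3 p L G) E3 True :=
    law_glue_fst (p₁ := ch3 p L G) (p₂ := p) (Z₁ := fun w => L w.2) (Z₂ := L) l3.nonneg
      (ch4_Z hp L G) E3 True
  have hEc : 1 / R ≤ law (ch4 p L G) E True := by rw [hEl]; exact hbig
  have hE0 : 0 < law (ch4 p L G) E True := hR'.trans_le hEc
  set Q := Pool.Agent.H49.Ent.cond (ch4 p L G) E True with hQ
  have hQlaw : IsLaw Q := ⟨cond_nonneg l4.nonneg E True, sum_cond (ch4 p L G) E hE0.ne'⟩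
  have hsup : ∀ u, 0 < Q u → (0 < p u.1.1.1.1 ∧ 0 < p u.1.1.1.2 ∧ 0 < p u.1.1.2 ∧ 0 < p u.1.2 ∧
      G u.1.1.1.1 = G u.1.1.1.2 ∧ L u.1.1.1.2 = L u.1.1.2 ∧ G u.1.1.2 = G u.1.2) ∧ 0 < p u.2 ∧
      L u.1.2 = L u.2 ∧ E3 u.1 := by
    intro u hu
    obtain ⟨h1, h2⟩ := (cond_pos_iff l4.nonneg E True u).mp hu
    obtain ⟨h3, h4, h5⟩ := ch4_pos hp L G h1
    exact ⟨ch3_pos hp L G h3, h4, h5, of_eq_true h2⟩
  -- the times are full
  have hf := ch4_full hp L G t C D ht hC hfull hLA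
  have hf2 := deficit_ev2 l4 (fun u => (t u.1.1.1.1, t u.1.1.2))
    (fun u => (t u.2, (D (L u.1.2), (D (L u.1.1.1.2), L u.1.1.1.1))))
    (L := 2 * Real.log (2 * M + 1)) (e := 3 * e + 3 * e') hR' (by positivity)
    (fun q hq hqp => by
      have c1 := CH_subadd hq.nonneg (fun u => t u.1.1.1.1) (fun u => t u.1.1.2)
        (fun u => (t u.2, (D (L u.1.2), (D (L u.1.1.1.2), L u.1.1.1.1))))
      have c2 := CH_le_box hq (fun u => t u.1.1.1.1)
        (fun u => (t u.2, (D (L u.1.2), (D (L u.1.1.1.2), L u.1.1.1.1)))) (M := M) fun u hu =>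
          ht _ (ch3_pos hp L G (ch4_pos hp L G (hqp u hu)).1).1
      have c3 := CH_le_box hq (fun u => t u.1.1.2)
        (fun u => (t u.2, (D (L u.1.2), (D (L u.1.1.1.2), L u.1.1.1.1)))) (M := M) fun u hu =>
          ht _ (ch3_pos hp L G (ch4_pos hp L G (hqp u hu)).1).2.2.1
      linarith) hf E hEc
  have h3 : (3 * e + 3 * e' + Real.log 2) / (1 / R) = R * (3 * e + 3 * e' + Real.log 2) := by
    field_simp
  rw [h3] at hf2
  -- the core
  have hcore := mc_core hQlaw hM hK hA (fun u => L u.1.1.1.1) (fun u => L u.1.1.1.2)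
    (fun u => L u.1.2) (fun u => t u.1.1.1.1) (fun u => t u.1.1.2) (fun u => t u.2) D v N s g hm₀
    hmM hg₀ hs (fun u hu => hsA _ (hsup u hu).1.1 _ (ht _ (hsup u hu).2.1))
    (fun u hu => ht _ (hsup u hu).1.1) (fun u hu => ht _ (hsup u hu).1.2.2.1)
    (fun u hu => ht _ (hsup u hu).2.1)
    (fun u hu => hG _ _ (hsup u hu).1.1 (hsup u hu).1.2.1 (hsup u hu).1.2.2.2.2.1)
    (fun u hu => by
      obtain ⟨⟨a1, a2, a3, a4, a5, a6, a7⟩, -⟩ := hsup u hu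
      rw [a6]
      exact hG _ _ a3 a4 a7)
    (fun u hu => (hsup u hu).2.2.2.1)
    (fun u hu => by
      obtain ⟨⟨a1, a2, a3, a4, a5, a6, a7⟩, b1, b2, b3⟩ := hsup u hu
      show m₀ ≤ |D (L u.1.2) - D (L u.1.1.1.2)|
      rw [a6]
      exact b3.2.1)
    (fun u hu => (hsup u hu).2.2.2.2.2) hf2
  -- transfer
  obtain ⟨m1, m2, m3⟩ := marg_cond l4 (fun u : (((Ω × Ω) × Ω) × Ω) × Ω => u.2) (p := p)
    (fun ω => by
      have h := law_glue_snd (p₁ := ch3 p L G) (p₂ := p) (Z₁ := fun w => L w.2) (Z₂ := L) p0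
        (ch4_Z hp L G) (fun ω => ω) ω
      refine h.trans ?_
      unfold law
      rw [Finset.sum_ite_eq']
      simp) E hR hEc
  refine ⟨_, m1, m2, ?_⟩
  rw [← m3 (fun ω => N (L ω) (t ω)) (fun ω => (v (L ω) (t ω), (t ω, C (L ω))))]
  have hd : CH Q (fun u => N (L u.1.2) (t u.2)) (fun u => (v (L u.1.2) (t u.2),
      (t u.2, L u.1.1.1.1))) ≤ CH Q (fun u => N (L u.2) (t u.2))
        (fun u => (v (L u.2) (t u.2), (t u.2, C (L u.2)))) := by
    have e1 : ∀ u, 0 < Q u → L u.1.2 = L u.2 := fun u hu => (hsup u hu).2.2.1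
    have e2 : ∀ u, 0 < Q u → C (L u.1.1.1.1) = C (L u.2) := fun u hu => by
      obtain ⟨⟨a1, a2, a3, a4, a5, a6, a7⟩, b1, b2, b3⟩ := hsup u hu
      rw [← b2, ← hC _ _ a3 a4 a7, ← a6, ← hC _ _ a1 a2 a5]
    have h1 : CH Q (fun u => N (L u.1.2) (t u.2)) (fun u => (v (L u.1.2) (t u.2),
        (t u.2, L u.1.1.1.1))) ≤ CH Q (fun u => N (L u.1.2) (t u.2))
        (fun u => (v (L u.2) (t u.2), (t u.2, C (L u.2)))) :=
      CH_mono_cond hQlaw.nonneg fun u u' hu hu' hz => by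
        obtain ⟨c1, c2⟩ := Prod.ext_iff.mp hz
        obtain ⟨c3, c4⟩ := Prod.ext_iff.mp c2
        have c5 : L u.1.1.1.1 = L u'.1.1.1.1 := c4
        have c1' : v (L u.1.2) (t u.2) = v (L u'.1.2) (t u'.2) := c1
        rw [e1 u hu, e1 u' hu'] at c1'
        refine Prod.ext c1' (Prod.ext c3 ?_)
        show C (L u.2) = C (L u'.2)
        rw [← e2 u hu, ← e2 u' hu', c5]
    refine h1.trans (le_of_eq ?_)
    refine CH_congr hQlaw.nonneg ?_ ?_ (fun _ _ _ _ h => h) (fun _ _ _ _ h => h)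
    · intro u u' hu hu' hz
      have h3 : N (L u.1.2) (t u.2) = N (L u'.1.2) (t u'.2) := (Prod.ext_iff.mp hz).1
      rwa [e1 u hu, e1 u' hu'] at h3
    · intro u u' hu hu' hz
      have h3 : N (L u.2) (t u.2) = N (L u'.2) (t u'.2) := (Prod.ext_iff.mp hz).1
      show N (L u.1.2) (t u.2) = N (L u'.1.2) (t u'.2)
      rw [e1 u hu, e1 u' hu']
      exact h3
  exact hcore.trans hd

end Pool.SLW13
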