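import Pool.Agent.H13.SLW.Mcg

/-!
# The moving slope: two windows

The chain of `Mcg`, slopes `s` constant on the cells `cl` of the time. If the slopes of the cells of
`T₀` and `T₁` differ by at least `j₀`, then `N` is full given `v` in the digits below the cells.
-/

set_option autoImplicit false

namespace Pool.SLW13

open Finset Real
open Pool.Agent.H49.Ent Pool.Agent.H32.Dense Pool.STK Pool.OWN68 Pool.VH64

/-- The error of `mcw`. -/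
noncomputable def erw (M K V A m mm : ℕ) (m₀ j₀ : ℝ) : ℝ :=
  Real.log (2 * (12 * K * A * M / (j₀ * m₀)) + 1) + Real.log (2 * (4 * K * M / m₀) + 1) +
    Real.log (2 * (2 * V * m / M + 4 * K) + 1) +
    Real.log (2 * ((2 * A * V * m / M + 8 * K) / mm + 1) + 1)

/-- Two hops, slopes which are any function of the time. -/
theorem two_hopsw {Λ : Type} {M K V : ℕ} (hM : 1 ≤ M) {D : Λ → ℝ}
    {v N : Λ → ℤ → ℤ} {s : Λ → ℤ → ℝ} {l1 l2 l3 : Λ} {T0 T1 τ : ℤ} (hT1 : |T1| ≤ (M : ℤ))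
    (hτ : |τ| ≤ (M : ℤ)) (h12 : HopR M K V D v N s l1 l2 T0) (h23 : HopR M K V D v N s l2 l3 T1) :
    |((D l2 - D l1) * (((τ : ℝ) - T0) / M) + (D l3 - D l2) * (((τ : ℝ) - T1) / M)) -
      ((v l3 τ : ℝ) - v l1 τ)| ≤ 2 * K ∧
    |(s l1 T0 * ((D l2 - D l1) * (((τ : ℝ) - T0) / M)) +
      s l1 T1 * ((D l3 - D l2) * (((τ : ℝ) - T1) / M))) - ((N l3 τ : ℝ) - N l1 τ)| ≤ 4 * K := by
  have hMr : (1 : ℝ) ≤ M := by exact_mod_cast hM
  have hM0 : (0 : ℝ) < M := by linarith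
  obtain ⟨d1, hd1⟩ : ∃ d, d = D l2 - D l1 := ⟨_, rfl⟩
  obtain ⟨d2, hd2⟩ : ∃ d, d = D l3 - D l2 := ⟨_, rfl⟩
  obtain ⟨x0, hx0⟩ : ∃ d, d = ((τ : ℝ) - T0) / M := ⟨_, rfl⟩
  obtain ⟨x1, hx1⟩ : ∃ d, d = ((τ : ℝ) - T1) / M := ⟨_, rfl⟩
  have v1 := h12.vel τ hτ
  have v2 := h23.vel τ hτ
  have n1 := h12.nel τ hτ
  have n2 := h23.nel τ hτ
  have s1 := h12.slp T1 hT1
  have b2 := h23.big
  rw [← hd1, ← hx0] at v1 n1
  rw [← hd2, ← hx1] at v2 n2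
  rw [← hd2] at b2
  rw [← hd1, ← hd2, ← hx0, ← hx1]
  have hx1b : |x1| ≤ 2 := by
    have h2 : |(T1 : ℝ)| ≤ M := by
      rw [← Int.cast_abs]
      exact_mod_cast hT1
    have h3 : |(τ : ℝ)| ≤ M := by
      rw [← Int.cast_abs]
      exact_mod_cast hτ
    rw [hx1, abs_div, abs_of_pos hM0, div_le_iff₀ hM0]
    exact (abs_sub _ _).trans (by linarith)
  constructor
  · rw [abs_le] at v1 v2 ⊢
    constructor <;> linarith [v1.1, v1.2, v2.1, v2.2]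
  have c3 : |(s l2 T1 - s l1 T1) * (d2 * x1)| ≤ 2 * K := by
    rw [abs_mul, abs_mul]
    have h3 : |s l2 T1 - s l1 T1| * |d2| ≤ K :=
      (mul_le_mul_of_nonneg_left b2 (abs_nonneg _)).trans s1
    have h4 := mul_le_mul h3 hx1b (abs_nonneg _) (by positivity)
    calc |s l2 T1 - s l1 T1| * (|d2| * |x1|) = |s l2 T1 - s l1 T1| * |d2| * |x1| := by ring
      _ ≤ K * 2 := h4
      _ = 2 * K := by ring
  have e1 : (s l1 T0 * (d1 * x0) + s l1 T1 * (d2 * x1)) - ((N l3 τ : ℝ) - N l1 τ) =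
      -((((N l2 τ : ℝ) - N l1 τ) - s l1 T0 * (d1 * x0)) +
        (((N l3 τ : ℝ) - N l2 τ) - s l2 T1 * (d2 * x1)) + (s l2 T1 - s l1 T1) * (d2 * x1)) := by
    ring
  rw [e1, abs_neg]
  have a1 := abs_add_le ((((N l2 τ : ℝ) - N l1 τ) - s l1 T0 * (d1 * x0)) +
        (((N l3 τ : ℝ) - N l2 τ) - s l2 T1 * (d2 * x1))) ((s l2 T1 - s l1 T1) * (d2 * x1))
  have a2 := abs_add_le (((N l2 τ : ℝ) - N l1 τ) - s l1 T0 * (d1 * x0))
        (((N l3 τ : ℝ) - N l2 τ) - s l2 T1 * (d2 * x1))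
  linarith

/-- **Two windows: the core.** -/
theorem mcw_core {Ω Λ γ : Type} [Fintype Ω] {Q : Ω → ℝ} (hQ : IsLaw Q) {M K V A m mm Nc : ℕ}
    (hM : 1 ≤ M) (hK : 1 ≤ K) (hA : 1 ≤ A) (hmm : 1 ≤ mm) (L1 L2 L3 : Ω → Λ) (T0 T1 t : Ω → ℤ)
    (D : Λ → ℝ) (v N : Λ → ℤ → ℤ) (s : Λ → ℤ → ℝ) (cl : ℤ → γ) {m₀ j₀ e : ℝ} (hm₀ : 0 < m₀)
    (hj₀ : 0 < j₀) (hcl : ∀ l τ τ', cl τ = cl τ' → s l τ = s l τ')
    (hclm : ∀ τ τ' : ℤ, |τ| ≤ (M : ℤ) → |τ'| ≤ (M : ℤ) → cl τ = cl τ' → |τ - τ'| ≤ (m : ℤ))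
    (F : Finset γ) (hF : F.card ≤ Nc) (hclF : ∀ τ : ℤ, |τ| ≤ (M : ℤ) → cl τ ∈ F)
    (hsA : ∀ ω, 0 < Q ω → ∀ τ : ℤ, |τ| ≤ (M : ℤ) → |s (L1 ω) τ| ≤ A)
    (h0 : ∀ ω, 0 < Q ω → |T0 ω| ≤ (M : ℤ)) (h1 : ∀ ω, 0 < Q ω → |T1 ω| ≤ (M : ℤ))
    (ht : ∀ ω, 0 < Q ω → |t ω| ≤ (M : ℤ))
    (h12 : ∀ ω, 0 < Q ω → HopR M K V D v N s (L1 ω) (L2 ω) (T0 ω))
    (h23 : ∀ ω, 0 < Q ω → HopR M K V D v N s (L2 ω) (L3 ω) (T1 ω))
    (hd1 : ∀ ω, 0 < Q ω → m₀ ≤ |D (L2 ω) - D (L1 ω)|)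
    (hd2 : ∀ ω, 0 < Q ω → m₀ ≤ |D (L3 ω) - D (L2 ω)|)
    (hj : ∀ ω, 0 < Q ω → j₀ ≤ |s (L1 ω) (T0 ω) - s (L1 ω) (T1 ω)|)
    (hf : 2 * Real.log (2 * M + 1) - e ≤
      CH Q (fun ω => (T0 ω, T1 ω)) (fun ω => (t ω, (D (L3 ω), (D (L2 ω), L1 ω))))) :
    2 * (Real.log (2 * M + 1) - Real.log Nc) - e - erw M K V A m mm m₀ j₀ ≤
      CH Q (fun ω => N (L3 ω) (t ω))
        (fun ω => (N (L3 ω) (t ω) / (mm : ℤ), (v (L3 ω) (t ω), (t ω, L1 ω)))) := by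
  classical
  have q0 := hQ.nonneg
  have hMr : (1 : ℝ) ≤ M := by exact_mod_cast hM
  have hM0 : (0 : ℝ) < M := by linarith
  have hKr : (1 : ℝ) ≤ K := by exact_mod_cast hK
  have hAr : (1 : ℝ) ≤ A := by exact_mod_cast hA
  have hmr : (1 : ℝ) ≤ mm := by exact_mod_cast hmm
  set Z : Ω → ℤ × ℝ × ℝ × Λ := fun ω => (t ω, (D (L3 ω), (D (L2 ω), L1 ω))) with hZ
  set R : Ω → γ × γ := fun ω => (cl (T0 ω), cl (T1 ω)) with hR
  set X : Ω → ℤ × ℤ := fun ω => (v (L3 ω) (t ω), N (L3 ω) (t ω)) with hX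
  -- the cells
  have c0 : CH Q R Z ≤ 2 * Real.log Nc := by
    have h := CH_le_few hQ R Z (N := Nc * Nc) (fun _ => F ×ˢ F)
      (fun _ => by
        rw [Finset.card_product]
        exact Nat.mul_le_mul hF hF)
      (fun ω hω => Finset.mem_product.mpr ⟨hclF _ (h0 ω hω), hclF _ (h1 ω hω)⟩)
    refine h.trans (le_of_eq ?_)
    obtain ⟨ω, hω⟩ : ∃ ω, 0 < Q ω := by
      by_contra hcon
      push Not at hcon
      have : ∑ ω, Q ω ≤ 0 := Finset.sum_nonpos fun ω _ => hcon ω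
      rw [hQ.sum_one] at this
      linarith
    have hN : 0 < Nc := lt_of_lt_of_le (Finset.card_pos.mpr ⟨_, hclF _ (h0 ω hω)⟩) hF
    push_cast
    rw [Real.log_mul (by positivity) (by positivity)]
    ring
  -- two samples with the same data
  have key : ∀ ω ω', 0 < Q ω → 0 < Q ω' → R ω = R ω' → Z ω = Z ω' →
      (|(D (L2 ω') - D (L1 ω')) * (((T0 ω - T0 ω' : ℤ) : ℝ) / M) +
        (D (L3 ω') - D (L2 ω')) * (((T1 ω - T1 ω' : ℤ) : ℝ) / M) +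
        (((v (L3 ω) (t ω) : ℝ) - v (L3 ω') (t ω')))| ≤ 4 * K ∧
      |s (L1 ω') (T0 ω') * ((D (L2 ω') - D (L1 ω')) * (((T0 ω - T0 ω' : ℤ) : ℝ) / M)) +
        s (L1 ω') (T1 ω') * ((D (L3 ω') - D (L2 ω')) * (((T1 ω - T1 ω' : ℤ) : ℝ) / M)) +
        (((N (L3 ω) (t ω) : ℝ) - N (L3 ω') (t ω')))| ≤ 8 * K) := by
    intro ω ω' hω hω' hr hz
    obtain ⟨z1, z2⟩ := Prod.ext_iff.mp hz
    obtain ⟨z3, z4⟩ := Prod.ext_iff.mp z2
    obtain ⟨z5, z6⟩ := Prod.ext_iff.mp z4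
    obtain ⟨r1, r2⟩ := Prod.ext_iff.mp hr
    simp only [hZ, hR] at z1 z3 z5 z6 r1 r2
    have w1 := two_hopsw hM (h1 ω hω) (ht ω hω) (h12 ω hω) (h23 ω hω)
    have w2 := two_hopsw hM (h1 ω' hω') (ht ω' hω') (h12 ω' hω') (h23 ω' hω')
    rw [z1, z3, z5, z6, hcl _ _ _ r1, hcl _ _ _ r2] at w1
    obtain ⟨⟨a1, a2⟩, a3⟩ := (⟨abs_le.mp w1.1, w1.2⟩ : _ ∧ _)
    obtain ⟨⟨b1, b2⟩, b3⟩ := (⟨abs_le.mp w2.1, w2.2⟩ : _ ∧ _)
    obtain ⟨a3, a4⟩ := abs_le.mp a3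
    obtain ⟨b3, b4⟩ := abs_le.mp b3
    obtain ⟨d1, hd1⟩ : ∃ d, d = D (L2 ω') - D (L1 ω') := ⟨_, rfl⟩
    obtain ⟨d2, hd2⟩ : ∃ d, d = D (L3 ω') - D (L2 ω') := ⟨_, rfl⟩
    rw [← hd1, ← hd2] at a1 a2 a3 a4 b1 b2 b3 b4 ⊢
    have e1 : d1 * (((T0 ω - T0 ω' : ℤ) : ℝ) / M) = d1 * (((t ω' : ℝ) - T0 ω') / M) -
        d1 * (((t ω' : ℝ) - T0 ω) / M) := by
      push_cast
      ring
    have e2 : d2 * (((T1 ω - T1 ω' : ℤ) : ℝ) / M) = d2 * (((t ω' : ℝ) - T1 ω') / M) -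
        d2 * (((t ω' : ℝ) - T1 ω) / M) := by
      push_cast
      ring
    rw [z1, e1, e2, mul_sub, mul_sub]
    constructor
    · rw [abs_le]
      constructor <;> linarith
    · rw [abs_le]
      constructor <;> linarith
  -- bounds from the cells
  have cb : ∀ {δ : ℝ} {τ τ' : ℤ}, |δ| ≤ V → |τ - τ'| ≤ (m : ℤ) →
      |δ * (((τ - τ' : ℤ) : ℝ) / M)| ≤ V * m / M := by
    intro δ τ τ' hδ hτ
    have h2 : |((τ - τ' : ℤ) : ℝ)| ≤ m := by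
      rw [← Int.cast_abs]
      exact_mod_cast hτ
    rw [abs_mul, abs_div, abs_of_pos hM0, mul_div_assoc']
    exact div_le_div_of_nonneg_right (mul_le_mul hδ h2 (abs_nonneg _) (by positivity)) hM0.le
  -- the coordinate `v`
  have c1 : CH Q (fun ω => v (L3 ω) (t ω)) (fun ω => (R ω, Z ω)) ≤
      Ex Q (fun _ => Real.log (2 * (2 * V * m / M + 4 * K) + 1)) := by
    refine CH_le_int q0 hQ.sum_one _ _ _ ?_
    intro ω ω' hω hω' hW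
    obtain ⟨hr, hz⟩ := Prod.ext_iff.mp hW
    have k := (key ω ω' hω hω' hr hz).1
    obtain ⟨r1, r2⟩ := Prod.ext_iff.mp hr
    have k1 := cb (h12 ω' hω').big (hclm _ _ (h0 ω hω) (h0 ω' hω') r1)
    have k2 := cb (h23 ω' hω').big (hclm _ _ (h1 ω hω) (h1 ω' hω') r2)
    have e1 : 2 * (V : ℝ) * m / M = V * m / M + V * m / M := by ring
    rw [e1, Int.cast_sub]
    rw [abs_le] at k k1 k2 ⊢
    constructor <;> linarith [k.1, k.2, k1.1, k1.2, k2.1, k2.2]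
  -- the upper digits of `N`
  have c2 : CH Q (fun ω => N (L3 ω) (t ω) / (mm : ℤ)) (fun ω => (R ω, Z ω)) ≤
      Ex Q (fun _ => Real.log (2 * ((2 * A * V * m / M + 8 * K) / mm + 1) + 1)) := by
    refine CH_le_int q0 hQ.sum_one _ _ _ ?_
    intro ω ω' hω hω' hW
    obtain ⟨hr, hz⟩ := Prod.ext_iff.mp hW
    have k := (key ω ω' hω hω' hr hz).2
    obtain ⟨r1, r2⟩ := Prod.ext_iff.mp hr
    have k1 := cb (h12 ω' hω').big (hclm _ _ (h0 ω hω) (h0 ω' hω') r1)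
    have k2 := cb (h23 ω' hω').big (hclm _ _ (h1 ω hω) (h1 ω' hω') r2)
    have k3 : |s (L1 ω') (T0 ω') * ((D (L2 ω') - D (L1 ω')) * (((T0 ω - T0 ω' : ℤ) : ℝ) / M))| ≤
        A * (V * m / M) := by
      rw [abs_mul]
      exact mul_le_mul (hsA ω' hω' _ (h0 ω' hω')) k1 (abs_nonneg _) (by positivity)
    have k4 : |s (L1 ω') (T1 ω') * ((D (L3 ω') - D (L2 ω')) * (((T1 ω - T1 ω' : ℤ) : ℝ) / M))| ≤
        A * (V * m / M) := by
      rw [abs_mul]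
      exact mul_le_mul (hsA ω' hω' _ (h1 ω' hω')) k2 (abs_nonneg _) (by positivity)
    have k5 : |((N (L3 ω) (t ω) : ℝ) - N (L3 ω') (t ω'))| ≤ 2 * A * V * m / M + 8 * K := by
      have e1 : 2 * (A : ℝ) * V * m / M = A * (V * m / M) + A * (V * m / M) := by ring
      rw [e1]
      rw [abs_le] at k k3 k4 ⊢
      constructor <;> linarith [k.1, k.2, k3.1, k3.2, k4.1, k4.2]
    have hm0 : (0 : ℝ) < mm := by linarith
    have g : ∀ n : ℤ, (n : ℝ) / mm - 1 ≤ ((n / (mm : ℤ) : ℤ) : ℝ) ∧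
        ((n / (mm : ℤ) : ℤ) : ℝ) ≤ (n : ℝ) / mm := by
      intro n
      have h3 : ((n / (mm : ℤ) : ℤ) : ℝ) = (⌊(n : ℝ) / mm⌋ : ℤ) := by
        congr 1
        have h5 : ⌊((n : ℝ) / (mm : ℝ))⌋ = n / (mm : ℤ) := by
          rw [Int.floor_eq_iff]
          have h7 := Int.emod_add_mul_ediv n (mm : ℤ)
          have h8 := Int.emod_nonneg n (show (mm : ℤ) ≠ 0 by omega)
          have h9 := Int.emod_lt_of_pos n (show (0 : ℤ) < mm by omega)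
          have h10 : (((n % (mm : ℤ) : ℤ)) : ℝ) + mm * ((n / (mm : ℤ) : ℤ) : ℝ) = n := by
            exact_mod_cast h7
          have h11 : (0 : ℝ) ≤ ((n % (mm : ℤ) : ℤ) : ℝ) := by exact_mod_cast h8
          have h12 : ((n % (mm : ℤ) : ℤ) : ℝ) < mm := by exact_mod_cast h9
          constructor
          · rw [le_div_iff₀ hm0]
            nlinarith
          · rw [div_lt_iff₀ hm0]
            nlinarith
        exact h5.symm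
      rw [h3]
      constructor
      · have := Int.lt_floor_add_one ((n : ℝ) / mm)
        linarith
      · exact Int.floor_le _
    have g1 := g (N (L3 ω) (t ω))
    have g2 := g (N (L3 ω') (t ω'))
    have k6 : |(N (L3 ω) (t ω) : ℝ) / mm - (N (L3 ω') (t ω') : ℝ) / mm| ≤
        (2 * A * V * m / M + 8 * K) / mm := by
      rw [← sub_div, abs_div, abs_of_pos hm0]
      exact div_le_div_of_nonneg_right k5 hm0.le
    rw [Int.cast_sub]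
    rw [abs_le] at k6 ⊢
    constructor <;> linarith [k6.1, k6.2, g1.1, g1.2, g2.1, g2.2]
  -- the times are few given the pair
  have c3 : CH Q T0 (fun ω => (X ω, (R ω, Z ω))) ≤
      Ex Q (fun _ => Real.log (2 * (12 * K * A * M / (j₀ * m₀)) + 1)) := by
    refine CH_le_int q0 hQ.sum_one _ _ _ ?_
    intro ω ω' hω hω' hW
    obtain ⟨hx, hW⟩ := Prod.ext_iff.mp hW
    obtain ⟨hr, hz⟩ := Prod.ext_iff.mp hW
    obtain ⟨x1, x2⟩ := Prod.ext_iff.mp hx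
    simp only [hX] at x1 x2
    obtain ⟨k1, k2⟩ := key ω ω' hω hω' hr hz
    rw [x1, sub_self, add_zero] at k1
    rw [x2, sub_self, add_zero] at k2
    have k3 : |s (L1 ω') (T1 ω') * ((D (L2 ω') - D (L1 ω')) * (((T0 ω - T0 ω' : ℤ) : ℝ) / M) +
        (D (L3 ω') - D (L2 ω')) * (((T1 ω - T1 ω' : ℤ) : ℝ) / M))| ≤ A * (4 * K) := by
      rw [abs_mul]
      exact mul_le_mul (hsA ω' hω' _ (h1 ω' hω')) k1 (abs_nonneg _) (by positivity)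
    have k4 : |(s (L1 ω') (T0 ω') - s (L1 ω') (T1 ω')) *
        ((D (L2 ω') - D (L1 ω')) * (((T0 ω - T0 ω' : ℤ) : ℝ) / M))| ≤ 12 * K * A := by
      have e1 : (s (L1 ω') (T0 ω') - s (L1 ω') (T1 ω')) *
          ((D (L2 ω') - D (L1 ω')) * (((T0 ω - T0 ω' : ℤ) : ℝ) / M)) =
          (s (L1 ω') (T0 ω') * ((D (L2 ω') - D (L1 ω')) * (((T0 ω - T0 ω' : ℤ) : ℝ) / M)) +
          s (L1 ω') (T1 ω') * ((D (L3 ω') - D (L2 ω')) * (((T1 ω - T1 ω' : ℤ) : ℝ) / M))) -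
          s (L1 ω') (T1 ω') * ((D (L2 ω') - D (L1 ω')) * (((T0 ω - T0 ω' : ℤ) : ℝ) / M) +
          (D (L3 ω') - D (L2 ω')) * (((T1 ω - T1 ω' : ℤ) : ℝ) / M)) := by ring
      rw [e1]
      refine (abs_sub _ _).trans ?_
      have h5 : (K : ℝ) ≤ K * A := le_mul_of_one_le_right (by positivity) hAr
      linarith
    rw [abs_mul, abs_mul, abs_div, abs_of_pos hM0] at k4
    have k5 : j₀ * (m₀ * (|((T0 ω - T0 ω' : ℤ) : ℝ)| / M)) ≤ 12 * K * A := by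
      refine le_trans ?_ k4
      refine mul_le_mul (hj ω' hω') ?_ (by positivity) (abs_nonneg _)
      exact mul_le_mul_of_nonneg_right (hd1 ω' hω') (by positivity)
    rw [le_div_iff₀ (by positivity)]
    have e2 : j₀ * (m₀ * (|((T0 ω - T0 ω' : ℤ) : ℝ)| / M)) =
        |((T0 ω - T0 ω' : ℤ) : ℝ)| * (j₀ * m₀) / M := by ring
    rw [e2, div_le_iff₀ hM0] at k5
    exact k5
  have c4 : CH Q T1 (fun ω => (T0 ω, (X ω, (R ω, Z ω)))) ≤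
      Ex Q (fun _ => Real.log (2 * (4 * K * M / m₀) + 1)) := by
    refine CH_le_int q0 hQ.sum_one _ _ _ ?_
    intro ω ω' hω hω' hW
    obtain ⟨hT, hW⟩ := Prod.ext_iff.mp hW
    obtain ⟨hx, hW⟩ := Prod.ext_iff.mp hW
    obtain ⟨hr, hz⟩ := Prod.ext_iff.mp hW
    obtain ⟨x1, x2⟩ := Prod.ext_iff.mp hx
    simp only [hX] at x1 x2 hT
    obtain ⟨k1, k2⟩ := key ω ω' hω hω' hr hz
    rw [x1, sub_self, add_zero, hT, sub_self, Int.cast_zero, zero_div, mul_zero, zero_add,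
      abs_mul, abs_div, abs_of_pos hM0] at k1
    have k4 : m₀ * (|((T1 ω - T1 ω' : ℤ) : ℝ)| / M) ≤ 4 * K :=
      (mul_le_mul_of_nonneg_right (hd2 ω' hω') (by positivity)).trans k1
    rw [le_div_iff₀ hm₀]
    rw [mul_div_assoc', div_le_iff₀ hM0] at k4
    linarith
  rw [Ex_const hQ.sum_one] at c1 c2 c3 c4
  -- the sum
  have s1 : CH Q (fun ω => (T0 ω, T1 ω)) Z ≤ CH Q R Z +
      CH Q (fun ω => (T0 ω, T1 ω)) (fun ω => (R ω, Z ω)) := CH_le_add q0 _ R Z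
  have s2 : CH Q (fun ω => (T0 ω, T1 ω)) (fun ω => (R ω, Z ω)) ≤ CH Q X (fun ω => (R ω, Z ω)) +
      CH Q (fun ω => (T0 ω, T1 ω)) (fun ω => (X ω, (R ω, Z ω))) := CH_le_add q0 _ X _
  have s3 := CH_chain2 q0 T0 T1 (fun ω => (X ω, (R ω, Z ω)))
  have s4 : CH Q X (fun ω => (R ω, Z ω)) = CH Q (fun ω => v (L3 ω) (t ω)) (fun ω => (R ω, Z ω)) +
      CH Q (fun ω => N (L3 ω) (t ω)) (fun ω => (v (L3 ω) (t ω), (R ω, Z ω))) :=
    CH_chain2 q0 (fun ω => v (L3 ω) (t ω)) (fun ω => N (L3 ω) (t ω)) (fun ω => (R ω, Z ω))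
  have s5 : CH Q (fun ω => N (L3 ω) (t ω)) (fun ω => (v (L3 ω) (t ω), (R ω, Z ω))) ≤
      CH Q (fun ω => N (L3 ω) (t ω) / (mm : ℤ)) (fun ω => (v (L3 ω) (t ω), (R ω, Z ω))) +
      CH Q (fun ω => N (L3 ω) (t ω))
        (fun ω => (N (L3 ω) (t ω) / (mm : ℤ), (v (L3 ω) (t ω), (R ω, Z ω)))) :=
    CH_le_add q0 _ _ _
  have s6 : CH Q (fun ω => N (L3 ω) (t ω) / (mm : ℤ)) (fun ω => (v (L3 ω) (t ω), (R ω, Z ω))) ≤
      CH Q (fun ω => N (L3 ω) (t ω) / (mm : ℤ)) (fun ω => (R ω, Z ω)) :=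
    CH_mono_cond q0 fun ω ω' _ _ hz => (Prod.ext_iff.mp hz).2
  have s7 : CH Q (fun ω => N (L3 ω) (t ω))
        (fun ω => (N (L3 ω) (t ω) / (mm : ℤ), (v (L3 ω) (t ω), (R ω, Z ω)))) ≤
      CH Q (fun ω => N (L3 ω) (t ω))
        (fun ω => (N (L3 ω) (t ω) / (mm : ℤ), (v (L3 ω) (t ω), (t ω, L1 ω)))) :=
    CH_mono_cond q0 fun ω ω' _ _ hz => by
      obtain ⟨z1, z2⟩ := Prod.ext_iff.mp hz
      obtain ⟨z3, z4⟩ := Prod.ext_iff.mp z2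
      obtain ⟨z5, z6⟩ := Prod.ext_iff.mp z4
      obtain ⟨z7, z8⟩ := Prod.ext_iff.mp z6
      obtain ⟨z9, z10⟩ := Prod.ext_iff.mp z8
      obtain ⟨z11, z12⟩ := Prod.ext_iff.mp z10
      exact Prod.ext z1 (Prod.ext z3 (Prod.ext z7 z12))
  unfold erw
  linarith

open Classical in
/-- **The moving slope, two windows.** As `mc`, for slopes which are constant on the cells of the time
and differ by at least `j₀` in the cells of `T₀` and `T₁`: `N` is full given `v` in the digits below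
the cells. -/
theorem mcw {Ω Λ Γ 𝒞 γ : Type} [Fintype Ω] {p : Ω → ℝ} (hp : IsLaw p) {M K V A m mm Nc : ℕ}
    (hM : 1 ≤ M) (hK : 1 ≤ K) (hA : 1 ≤ A) (hmm : 1 ≤ mm) (L : Ω → Λ) (t : Ω → ℤ) (G : Ω → Γ)
    (C : Λ → 𝒞) (D : Λ → ℝ) (v N : Λ → ℤ → ℤ) (s : Λ → ℤ → ℝ) (cl : ℤ → γ) {m₀ j₀ R e e' : ℝ}
    (hm₀ : 0 < m₀) (hj₀ : 0 < j₀) (hR : 0 < R) (he : 0 ≤ e) (he' : 0 ≤ e')
    (hcl : ∀ l τ τ', cl τ = cl τ' → s l τ = s l τ')
    (hclm : ∀ τ τ' : ℤ, |τ| ≤ (M : ℤ) → |τ'| ≤ (M : ℤ) → cl τ = cl τ' → |τ - τ'| ≤ (m : ℤ))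
    (F : Finset γ) (hF : F.card ≤ Nc) (hclF : ∀ τ : ℤ, |τ| ≤ (M : ℤ) → cl τ ∈ F)
    (hsA : ∀ ω, 0 < p ω → ∀ τ : ℤ, |τ| ≤ (M : ℤ) → |s (L ω) τ| ≤ A)
    (ht : ∀ ω, 0 < p ω → |t ω| ≤ (M : ℤ))
    (hC : ∀ ω ω', 0 < p ω → 0 < p ω' → G ω = G ω' → C (L ω) = C (L ω'))
    (hG : ∀ ω ω', 0 < p ω → 0 < p ω' → G ω = G ω' → HopR M K V D v N s (L ω) (L ω') (t ω))
    (hfull : Real.log (2 * M + 1) - e ≤ CH p t L)
    (hLA : CH p (fun ω => D (L ω)) (fun ω => C (L ω)) ≤ CH p (fun ω => D (L ω)) G + e')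
    (hbig : 1 / R ≤ ∑ u, (if m₀ ≤ |D (L u.1.1.2) - D (L u.1.1.1)| ∧
      m₀ ≤ |D (L u.2) - D (L u.1.2)| ∧
      j₀ ≤ |s (L u.1.1.1) (t u.1.1.1) - s (L u.1.1.1) (t u.1.2)| then ch3 p L G u else 0)) :
    ∃ q : Ω → ℝ, IsLaw q ∧ (∀ ω, q ω ≤ R * p ω) ∧
      2 * (Real.log (2 * M + 1) - Real.log Nc) - R * (3 * e + 3 * e' + Real.log 2) -
        erw M K V A m mm m₀ j₀ ≤
      CH q (fun ω => N (L ω) (t ω))
        (fun ω => (N (L ω) (t ω) / (mm : ℤ), (v (L ω) (t ω), (t ω, C (L ω))))) := by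
  have p0 := hp.nonneg
  have l3 := ch3_law hp L G
  have l4 := ch4_law hp L G
  have hR' : 0 < 1 / R := by positivity
  set E3 : ((Ω × Ω) × Ω) × Ω → Prop := fun u => m₀ ≤ |D (L u.1.1.2) - D (L u.1.1.1)| ∧
      m₀ ≤ |D (L u.2) - D (L u.1.2)| ∧
      j₀ ≤ |s (L u.1.1.1) (t u.1.1.1) - s (L u.1.1.1) (t u.1.2)| with hE3
  have el : ∑ u, (if m₀ ≤ |D (L u.1.1.2) - D (L u.1.1.1)| ∧
      m₀ ≤ |D (L u.2) - D (L u.1.2)| ∧
      j₀ ≤ |s (L u.1.1.1) (t u.1.1.1) - s (L u.1.1.1) (t u.1.2)| then ch3 p L G u else 0) =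
      law (ch3 p L G) E3 True := by
    unfold law
    refine Finset.sum_congr rfl fun u _ => ?_
    simp only [hE3, eq_iff_iff, iff_true]
  rw [el] at hbig
  set E : (((Ω × Ω) × Ω) × Ω) × Ω → Prop := fun u => E3 u.1 with hE
  have hEl : law (ch4 p L G) E True = law (ch3 p L G) E3 True :=
    law_glue_fst (p₁ := ch3 p L G) (p₂ := p) (Z₁ := fun w => L w.2) (Z₂ := L) l3.nonneg
      (ch4_Z hp L G) E3 True
  have hEc : 1 / R ≤ law (ch4 p L G) E True := by rw [hEl]; exact hbig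
  have hE0 : 0 < law (ch4 p L G) E True := hR'.trans_le hEc
  set Q := Pool.Agent.H49.Ent.cond (ch4 p L G) E True with hQ
  have hQlaw : IsLaw Q := ⟨cond_nonneg l4.nonneg E True, sum_cond (ch4 p L G) E hE0.ne'⟩
  have hsup : ∀ u, 0 < Q u → (0 < p u.1.1.1.1 ∧ 0 < p u.1.1.1.2 ∧ 0 < p u.1.1.2 ∧ 0 < p u.1.2 ∧
      G u.1.1.1.1 = G u.1.1.1.2 ∧ L u.1.1.1.2 = L u.1.1.2 ∧ G u.1.1.2 = G u.1.2) ∧ 0 < p u.2 ∧
      L u.1.2 = L u.2 ∧ E3 u.1 := by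
    intro u hu
    obtain ⟨h1, h2⟩ := (cond_pos_iff l4.nonneg E True u).mp hu
    obtain ⟨h3, h4, h5⟩ := ch4_pos hp L G h1
    exact ⟨ch3_pos hp L G h3, h4, h5, of_eq_true h2⟩
  -- the times are full
  have hf := ch4_full hp L G t C D ht hC hfull hLA
  have hf2 := deficit_ev2 l4 (fun u => (t u.1.1.1.1, t u.1.1.2))
    (fun u => (t u.2, (D (L u.1.2), (D (L u.1.1.1.2), L u.1.1.1.1))))
    (L := 2 * Real.log (2 * M + 1)) (e := 3 * e + 3 * e') hR' (by positivity)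
    (fun q hq hqp => by
      have c1 := CH_subadd hq.nonneg (fun u => t u.1.1.1.1) (fun u => t u.1.1.2)
        (fun u => (t u.2, (D (L u.1.2), (D (L u.1.1.1.2), L u.1.1.1.1))))
      have c2 := CH_le_box hq (fun u => t u.1.1.1.1)
        (fun u => (t u.2, (D (L u.1.2), (D (L u.1.1.1.2), L u.1.1.1.1)))) (M := M) fun u hu =>
          ht _ (ch3_pos hp L G (ch4_pos hp L G (hqp u hu)).1).1
      have c3 := CH_le_box hq (fun u => t u.1.1.2)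
        (fun u => (t u.2, (D (L u.1.2), (D (L u.1.1.1.2), L u.1.1.1.1)))) (M := M) fun u hu =>
          ht _ (ch3_pos hp L G (ch4_pos hp L G (hqp u hu)).1).2.2.1
      linarith) hf E hEc
  have h3 : (3 * e + 3 * e' + Real.log 2) / (1 / R) = R * (3 * e + 3 * e' + Real.log 2) := by
    field_simp
  rw [h3] at hf2
  -- the core
  have hcore := mcw_core hQlaw hM hK hA hmm (fun u => L u.1.1.1.1) (fun u => L u.1.1.1.2)
    (fun u => L u.1.2) (fun u => t u.1.1.1.1) (fun u => t u.1.1.2) (fun u => t u.2) D v N s cl hm₀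
    hj₀ hcl hclm F hF hclF (fun u hu => hsA _ (hsup u hu).1.1)
    (fun u hu => ht _ (hsup u hu).1.1) (fun u hu => ht _ (hsup u hu).1.2.2.1)
    (fun u hu => ht _ (hsup u hu).2.1)
    (fun u hu => hG _ _ (hsup u hu).1.1 (hsup u hu).1.2.1 (hsup u hu).1.2.2.2.2.1)
    (fun u hu => by
      obtain ⟨⟨a1, a2, a3, a4, a5, a6, a7⟩, -⟩ := hsup u hu
      rw [a6]
      exact hG _ _ a3 a4 a7)
    (fun u hu => (hsup u hu).2.2.2.1)
    (fun u hu => by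
      obtain ⟨⟨a1, a2, a3, a4, a5, a6, a7⟩, b1, b2, b3⟩ := hsup u hu
      show m₀ ≤ |D (L u.1.2) - D (L u.1.1.1.2)|
      rw [a6]
      exact b3.2.1)
    (fun u hu => (hsup u hu).2.2.2.2.2) hf2
  -- transfer
  obtain ⟨m1, m2, m3⟩ := marg_cond l4 (fun u : (((Ω × Ω) × Ω) × Ω) × Ω => u.2) (p := p)
    (fun ω => by
      have h := law_glue_snd (p₁ := ch3 p L G) (p₂ := p) (Z₁ := fun w => L w.2) (Z₂ := L) p0
        (ch4_Z hp L G) (fun ω => ω) ω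
      refine h.trans ?_
      unfold law
      rw [Finset.sum_ite_eq']
      simp) E hR hEc
  refine ⟨_, m1, m2, ?_⟩
  rw [← m3 (fun ω => N (L ω) (t ω))
    (fun ω => (N (L ω) (t ω) / (mm : ℤ), (v (L ω) (t ω), (t ω, C (L ω)))))]
  have e1 : ∀ u, 0 < Q u → L u.1.2 = L u.2 := fun u hu => (hsup u hu).2.2.1
  have e2 : ∀ u, 0 < Q u → C (L u.1.1.1.1) = C (L u.2) := fun u hu => by
    obtain ⟨⟨a1, a2, a3, a4, a5, a6, a7⟩, b1, b2, b3⟩ := hsup u hu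
    rw [← b2, ← hC _ _ a3 a4 a7, ← a6, ← hC _ _ a1 a2 a5]
  have hd : CH Q (fun u => N (L u.1.2) (t u.2)) (fun u => (N (L u.1.2) (t u.2) / (mm : ℤ),
      (v (L u.1.2) (t u.2), (t u.2, L u.1.1.1.1)))) ≤ CH Q (fun u => N (L u.2) (t u.2))
        (fun u => (N (L u.2) (t u.2) / (mm : ℤ), (v (L u.2) (t u.2), (t u.2, C (L u.2))))) := by
    have h1 : CH Q (fun u => N (L u.1.2) (t u.2)) (fun u => (N (L u.1.2) (t u.2) / (mm : ℤ),
        (v (L u.1.2) (t u.2), (t u.2, L u.1.1.1.1)))) ≤ CH Q (fun u => N (L u.1.2) (t u.2))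
        (fun u => (N (L u.2) (t u.2) / (mm : ℤ), (v (L u.2) (t u.2), (t u.2, C (L u.2))))) :=
      CH_mono_cond hQlaw.nonneg fun u u' hu hu' hz => by
        obtain ⟨c0, c1⟩ := Prod.ext_iff.mp hz
        obtain ⟨c1, c2⟩ := Prod.ext_iff.mp c1
        obtain ⟨c3, c4⟩ := Prod.ext_iff.mp c2
        have c5 : L u.1.1.1.1 = L u'.1.1.1.1 := c4
        have c1' : v (L u.1.2) (t u.2) = v (L u'.1.2) (t u'.2) := c1
        have c0' : N (L u.1.2) (t u.2) / (mm : ℤ) = N (L u'.1.2) (t u'.2) / (mm : ℤ) := c0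
        rw [e1 u hu, e1 u' hu'] at c1' c0'
        refine Prod.ext c0' (Prod.ext c1' (Prod.ext c3 ?_))
        show C (L u.2) = C (L u'.2)
        rw [← e2 u hu, ← e2 u' hu', c5]
    refine h1.trans (le_of_eq ?_)
    refine CH_congr hQlaw.nonneg ?_ ?_ (fun _ _ _ _ h => h) (fun _ _ _ _ h => h)
    · intro u u' hu hu' hz
      have h3 : N (L u.1.2) (t u.2) = N (L u'.1.2) (t u'.2) := (Prod.ext_iff.mp hz).1
      rwa [e1 u hu, e1 u' hu'] at h3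
    · intro u u' hu hu' hz
      have h3 : N (L u.2) (t u.2) = N (L u'.2) (t u'.2) := (Prod.ext_iff.mp hz).1
      show N (L u.1.2) (t u.2) = N (L u'.1.2) (t u'.2)
      rw [e1 u hu, e1 u' hu']
      exact h3
  exact hcore.trans hd

end Pool.SLW13
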