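import Pool.Agent.H13.SLW.Mcg
import Pool.Agent.H54.OWN.Slope

/-!
# The moving slope: separated velocities

`sep_ev`: if `⌊D / m⌋` has more than `log (2 / δ)` bits given `G` on every event of probability at
least `δ / 2`, two samples with the same `G` are closer than `m` with probability at most `3 δ`.
`ch3_big`: the mass of the chains with separated velocities and a moving slope.
-/

set_option autoImplicit false

namespace Pool.SLW13

open Finset Real
open Pool.Agent.H49.Ent Pool.Agent.H32.Dense Pool.STK Pool.CH30 Pool.KM7 Pool.OWN17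

variable {Ω Λ Γ : Type} [Fintype Ω] {p : Ω → ℝ}

/-- **Separation** from the events. -/
theorem sep_ev (hp : IsLaw p) (G : Ω → Γ) (D : Ω → ℝ) {m δ : ℝ} (hm : 0 < m) (hδ : 0 < δ)
    (h : ∀ A : Ω → Prop, δ / 2 ≤ law p A True →
      Real.log (2 / δ) < CH (Pool.Agent.H49.Ent.cond p A True) (fun ω => ⌊D ω / m⌋) G) :
    law (P2 p G) (fun w => |D w.1 - D w.2| < m) True ≤ 3 * δ := by
  classical
  have h0 := hp.nonneg
  by_contra hcon
  push Not at hcon
  set c : Ω → ℤ := fun ω => ⌊D ω / m⌋ with hc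
  have h1 := near_cells hp G D hm
  have h2 : δ < law (P2 p G) (fun w => c w.1 = c w.2) True := by
    have : law (P2 p G) (fun w => |D w.1 - D w.2| < m) True ≤
      3 * law (P2 p G) (fun w => c w.1 = c w.2) True := h1
    linarith
  rw [P2_coll] at h2
  set t : Ω → ℝ := fun ω => law p (fun ω => (c ω, G ω)) (c ω, G ω) / law p G (G ω) with ht
  set A : Ω → Prop := fun ω => δ / 2 ≤ t ω with hA
  have hfst : ∀ (d : ℤ) (g : Γ), law p (fun ω => (c ω, G ω)) (d, g) ≤ law p G g := by
    intro d g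
    unfold law
    refine Finset.sum_le_sum fun ω _ => ?_
    by_cases hh : (c ω, G ω) = (d, g)
    · rw [if_pos hh, if_pos (Prod.ext_iff.mp hh).2]
    · rw [if_neg hh]
      split_ifs
      · exact h0 ω
      · exact le_rfl
  have ht1 : ∀ ω, 0 < p ω → t ω ≤ 1 := fun ω hω => by
    rw [ht]
    dsimp only
    rw [div_le_one (law_pos h0 G hω)]
    exact hfst _ _
  have h3 : δ < law p A True + δ / 2 := by
    refine lt_of_lt_of_le h2 ?_
    have key : ∑ ω, p ω * t ω ≤ law p A True + δ / 2 := by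
      have e : ∑ ω, p ω * (δ / 2) = δ / 2 := by
        rw [← Finset.sum_mul, hp.sum_one, one_mul]
      unfold law
      rw [← e, ← Finset.sum_add_distrib]
      refine Finset.sum_le_sum fun ω _ => ?_
      rcases (h0 ω).eq_or_lt with hω | hω
      · rw [← hω]
        simp
      · by_cases hh : A ω
        · rw [if_pos (eq_true hh)]
          nlinarith [ht1 ω hω]
        · rw [if_neg (fun h => hh (of_eq_true h)), zero_add]
          exact mul_le_mul_of_nonneg_left (not_le.mp hh).le hω.le
    exact key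
  have h4 : δ / 2 < law p A True := by linarith
  have h4' : 0 < law p A True := by linarith
  have hql : IsLaw (Pool.Agent.H49.Ent.cond p A True) := ⟨cond_nonneg h0 A True, sum_cond p A h4'.ne'⟩
  have h5 := h A h4.le
  set F : Γ → Finset ℤ := fun g => (univ.image c).filter
    (fun d => 0 < law p G g ∧ δ / 2 * law p G g ≤ law p (fun ω => (c ω, G ω)) (d, g)) with hF
  have hmem : ∀ ω, 0 < Pool.Agent.H49.Ent.cond p A True ω → c ω ∈ F (G ω) := by
    intro ω hω
    obtain ⟨a, b⟩ := (cond_pos_iff h0 A True ω).mp hω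
    have hl := law_pos h0 G a
    refine Finset.mem_filter.mpr ⟨Finset.mem_image_of_mem _ (Finset.mem_univ _), hl, ?_⟩
    have hb : δ / 2 ≤ t ω := of_eq_true b
    rw [ht] at hb
    exact (le_div_iff₀ hl).mp hb
  have hcard : ∀ ω, 0 < Pool.Agent.H49.Ent.cond p A True ω →
      Real.log ((F (G ω)).card) ≤ Real.log (2 / δ) := by
    intro ω hω
    have a := ((cond_pos_iff h0 A True ω).mp hω).1
    have hl := law_pos h0 G a
    have hpos : (0 : ℝ) < (F (G ω)).card := by
      exact_mod_cast Finset.card_pos.mpr ⟨_, hmem ω hω⟩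
    refine Real.log_le_log hpos ?_
    have s1 : ∑ d ∈ F (G ω), δ / 2 * law p G (G ω) ≤
        ∑ d ∈ F (G ω), law p (fun ω => (c ω, G ω)) (d, G ω) :=
      Finset.sum_le_sum fun d hd => (Finset.mem_filter.mp hd).2.2
    have s2 : ∑ d ∈ F (G ω), law p (fun ω => (c ω, G ω)) (d, G ω) ≤ law p G (G ω) := by
      unfold law
      rw [Finset.sum_comm]
      refine Finset.sum_le_sum fun ω' _ => ?_
      by_cases hg : G ω' = G ω
      · rw [if_pos hg]
        refine (Finset.sum_le_sum fun d hd => ?_).trans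
          ((Finset.sum_ite_eq' (F (G ω)) (c ω') (fun _ => p ω')).le.trans ?_)
        · by_cases hd' : d = c ω'
          · rw [if_pos hd']
            split_ifs
            · exact le_rfl
            · exact h0 ω'
          · rw [if_neg hd', if_neg (fun hh => hd' (Prod.ext_iff.mp hh).1.symm)]
        · split_ifs
          · exact le_rfl
          · exact h0 ω'
      · rw [if_neg hg]
        refine (Finset.sum_eq_zero fun d _ => ?_).le
        rw [if_neg (fun hh => hg (Prod.ext_iff.mp hh).2)]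
    rw [Finset.sum_const, nsmul_eq_mul] at s1
    have s3 : ((F (G ω)).card : ℝ) * (δ / 2 * law p G (G ω)) ≤ law p G (G ω) := s1.trans s2
    rw [le_div_iff₀ hδ]
    have s4 : ((F (G ω)).card : ℝ) * (δ / 2) ≤ 1 := by
      by_contra hcc
      push Not at hcc
      nlinarith
    linarith
  have h6 := CH_le_card hql.nonneg hql.sum_one c G F hmem
  have h7 : Ex (Pool.Agent.H49.Ent.cond p A True) (fun ω => Real.log ((F (G ω)).card)) ≤
      Real.log (2 / δ) := by
    rw [← Ex_const hql.sum_one (Real.log (2 / δ))]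
    exact Ex_mono hql.nonneg fun ω hω => hcard ω hω
  linarith

/-- The pair `(l₁, l₂)` of the chain. -/
theorem ch3_pair1 (hp : IsLaw p) (L : Ω → Λ) (G : Ω → Γ) {S : Type} (X : Ω × Ω → S) (x : S) :
    law (ch3 p L G) (fun u => X u.1.1) x = law (P2 p G) X x := by
  unfold ch3
  rw [law_glue_fst (ch2_law hp L G).nonneg (ch3_Z hp L G) (fun u => X u.1) x]
  unfold ch2
  exact law_glue_fst (ch1_law hp G).nonneg (ch2_Z hp L G) X x

/-- A glued pair depends on the law of the first factor only. -/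
theorem law_glue_map {Ω₁ Ω₂ Ω' S T : Type} [Fintype Ω₁] [Fintype Ω₂] [Fintype Ω'] {P : Ω' → ℝ}
    {p₁ : Ω₁ → ℝ} (p₂ : Ω₂ → ℝ) (pr : Ω' → Ω₁)
    (hpr : ∀ ω, law P pr ω = p₁ ω) (Z₁ : Ω₁ → T) (Z₂ : Ω₂ → T) (X : Ω₁ × Ω₂ → S) (x : S) :
    law (glue P p₂ (fun w => Z₁ (pr w)) Z₂) (fun u => X (pr u.1, u.2)) x =
      law (glue p₁ p₂ Z₁ Z₂) X x := by
  classical
  have e0 : ∀ z, law P (fun w => Z₁ (pr w)) z = law p₁ Z₁ z := by
    intro z
    unfold law
    simp_rw [← hpr]
    unfold law
    have : ∀ ω, (if Z₁ ω = z then ∑ w, (if pr w = ω then P w else 0) else 0) =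
        ∑ w, (if pr w = ω then (if Z₁ ω = z then P w else 0) else 0) := by
      intro ω
      by_cases h : Z₁ ω = z <;> simp [h]
    rw [Finset.sum_congr rfl (fun ω _ => this ω), Finset.sum_comm]
    refine Finset.sum_congr rfl fun w _ => ?_
    rw [Finset.sum_ite_eq]
    simp
  have e1 : law (glue p₁ p₂ Z₁ Z₂) X x = ∑ ω : Ω₁, ∑ ω₂ : Ω₂,
      (if X (ω, ω₂) = x then (if Z₁ ω = Z₂ ω₂ then p₁ ω * p₂ ω₂ / law p₁ Z₁ (Z₁ ω) else 0)
        else 0) := by
    rw [show law (glue p₁ p₂ Z₁ Z₂) X x =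
      ∑ w, (if X w = x then glue p₁ p₂ Z₁ Z₂ w else 0) from rfl, Fintype.sum_prod_type]
    rfl
  have e2 : law (glue P p₂ (fun w => Z₁ (pr w)) Z₂) (fun u => X (pr u.1, u.2)) x =
      ∑ w : Ω', ∑ ω₂ : Ω₂, (if X (pr w, ω₂) = x then (if Z₁ (pr w) = Z₂ ω₂ then
        P w * p₂ ω₂ / law p₁ Z₁ (Z₁ (pr w)) else 0) else 0) := by
    unfold glue
    simp_rw [e0]
    unfold law
    rw [Fintype.sum_prod_type]
  rw [e1, e2]
  have e3 : ∀ (f : Ω₁ → ℝ), ∑ w, P w * f (pr w) = ∑ ω, p₁ ω * f ω := by
    intro f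
    simp_rw [← hpr]
    unfold law
    simp_rw [Finset.sum_mul]
    rw [Finset.sum_comm]
    refine Finset.sum_congr rfl fun w _ => ?_
    rw [Finset.sum_eq_single (pr w)]
    · simp
    · intro b _ hb
      rw [if_neg (Ne.symm hb)]
      simp
    · intro h
      exact absurd (Finset.mem_univ _) h
  have e4 := e3 (fun ω => ∑ ω₂ : Ω₂, (if X (ω, ω₂) = x then (if Z₁ ω = Z₂ ω₂ then
    p₂ ω₂ / law p₁ Z₁ (Z₁ ω) else 0) else 0))
  simp_rw [Finset.mul_sum] at e4
  calc _ = _ := Finset.sum_congr rfl fun w _ => Finset.sum_congr rfl fun ω₂ _ => by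
        split_ifs <;> ring
    _ = _ := e4
    _ = _ := Finset.sum_congr rfl fun w _ => Finset.sum_congr rfl fun ω₂ _ => by
        split_ifs <;> ring

/-- The pair `(l₂, l₃)` of the chain. -/
theorem ch3_pair2 (hp : IsLaw p) (L : Ω → Λ) (G : Ω → Γ) {S : Type} (X : Ω × Ω → S) (x : S) :
    law (ch3 p L G) (fun u => X (u.1.2, u.2)) x = law (P2 p G) X x := by
  have h : ∀ ω, law (ch2 p L G) (fun w => w.2) ω = p ω := by
    intro ω
    have := law_glue_snd hp.nonneg (ch2_Z hp L G) (fun ω => ω) ω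
    unfold ch2
    rw [this]
    unfold law
    rw [Finset.sum_eq_single ω]
    · exact if_pos rfl
    · intro b _ hb
      exact if_neg hb
    · intro h
      exact absurd (Finset.mem_univ _) h
  exact law_glue_map p (fun w : (Ω × Ω) × Ω => w.2) h G G X x

/-- The first line of the chain. -/
theorem ch3_fst (hp : IsLaw p) (L : Ω → Λ) (G : Ω → Γ) {S : Type} (X : Ω → S) (x : S) :
    law (ch3 p L G) (fun u => X u.1.1.1) x = law p X x := by
  have h1 := ch3_pair1 hp L G (fun w => X w.1) x
  rw [h1]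
  exact law_glue_fst hp.nonneg (fun _ => rfl) X x

/-- One term of the mass. -/
theorem ind3 {A B C A' B' : Prop} {_ : Decidable (A = True)} {_ : Decidable (B = True)}
    {_ : Decidable (C = True)} {_ : Decidable (A' ∧ B' ∧ C)} {y : ℝ} (hy : 0 ≤ y) (hA : ¬ A → A')
    (hB : ¬ B → B') : (if C = True then y else 0) ≤ (if A' ∧ B' ∧ C then y else 0) +
      ((if A = True then y else 0) + (if B = True then y else 0)) := by
  by_cases c1 : A
  · rw [if_pos (eq_true c1)]
    have t1 : (if C = True then y else 0) ≤ y := by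
      split_ifs
      · exact le_rfl
      · exact hy
    have t2 : 0 ≤ (if A' ∧ B' ∧ C then y else 0) := by
      split_ifs
      · exact hy
      · exact le_rfl
    have t3 : 0 ≤ (if B = True then y else 0) := by
      split_ifs
      · exact hy
      · exact le_rfl
    linarith
  · by_cases c2 : B
    · rw [if_pos (eq_true c2)]
      have t1 : (if C = True then y else 0) ≤ y := by
        split_ifs
        · exact le_rfl
        · exact hy
      have t2 : 0 ≤ (if A' ∧ B' ∧ C then y else 0) := by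
        split_ifs
        · exact hy
        · exact le_rfl
      have t3 : 0 ≤ (if A = True then y else 0) := by
        split_ifs
        · exact hy
        · exact le_rfl
      linarith
    · have t2 : 0 ≤ (if B = True then y else 0) := by
        split_ifs
        · exact hy
        · exact le_rfl
      have t3 : 0 ≤ (if A = True then y else 0) := by
        split_ifs
        · exact hy
        · exact le_rfl
      by_cases c3 : C
      · rw [if_pos (eq_true c3), if_pos ⟨hA c1, hB c2, c3⟩]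
        linarith
      · rw [if_neg (fun h => c3 (of_eq_true h)), if_neg (fun h => c3 h.2.2)]
        linarith

/-- **The mass of the good chains.** -/
theorem ch3_big (hp : IsLaw p) (L : Ω → Λ) (G : Ω → Γ) (D g : Λ → ℝ) {m₀ g₀ x δ : ℝ}
    (h1 : x ≤ law p (fun ω => g₀ ≤ |g (L ω)|) True)
    (h2 : law (P2 p G) (fun w => |D (L w.1) - D (L w.2)| < m₀) True ≤ δ) :
    x - 2 * δ ≤ ∑ u, (if m₀ ≤ |D (L u.1.1.2) - D (L u.1.1.1)| ∧
      m₀ ≤ |D (L u.2) - D (L u.1.2)| ∧ g₀ ≤ |g (L u.1.1.1)| then ch3 p L G u else 0) := by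
  have a1 : law (ch3 p L G) (fun u => g₀ ≤ |g (L u.1.1.1)|) True =
      law p (fun ω => g₀ ≤ |g (L ω)|) True :=
    ch3_fst hp L G (fun ω => g₀ ≤ |g (L ω)|) True
  have a2 : law (ch3 p L G) (fun u => |D (L u.1.1.1) - D (L u.1.1.2)| < m₀) True ≤ δ := by
    have := ch3_pair1 hp L G (fun w => |D (L w.1) - D (L w.2)| < m₀) True
    rw [this]
    exact h2
  have a3 : law (ch3 p L G) (fun u => |D (L u.1.2) - D (L u.2)| < m₀) True ≤ δ := by
    have := ch3_pair2 hp L G (fun w => |D (L w.1) - D (L w.2)| < m₀) True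
    rw [this]
    exact h2
  have hn := (ch3_law hp L G).nonneg
  have key : law (ch3 p L G) (fun u => g₀ ≤ |g (L u.1.1.1)|) True ≤
      (∑ u, (if m₀ ≤ |D (L u.1.1.2) - D (L u.1.1.1)| ∧
        m₀ ≤ |D (L u.2) - D (L u.1.2)| ∧ g₀ ≤ |g (L u.1.1.1)| then ch3 p L G u else 0)) +
      (law (ch3 p L G) (fun u => |D (L u.1.1.1) - D (L u.1.1.2)| < m₀) True +
        law (ch3 p L G) (fun u => |D (L u.1.2) - D (L u.2)| < m₀) True) := by
    unfold law
    rw [← Finset.sum_add_distrib, ← Finset.sum_add_distrib]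
    refine Finset.sum_le_sum fun u _ => ?_
    refine ind3 (hn u) (fun h => ?_) (fun h => ?_)
    · rw [not_lt, abs_sub_comm] at h
      exact h
    · rw [not_lt, abs_sub_comm] at h
      exact h
  linarith

end Pool.SLW13
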